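import Pool.Agent.D0H98.BC.Fou

/-!
# The trigonometric products tend to zero
-/

set_option autoImplicit false

open MeasureTheory Filter Topology Set

namespace Pool.Agent.D0H98.BC

variable {β : ℝ}

/-- If `R^t y` tends to the integers, `R > 1` rational and `y ≠ 0`, then `R` is an integer and some `R^t y` is an
integer. -/
lemma rigid {R : ℚ} (hR : 1 < R) {y : ℝ} (hy : y ≠ 0)
    (h : Tendsto (fun t : ℕ => (R : ℝ) ^ t * y - round ((R : ℝ) ^ t * y)) atTop (𝓝 0)) :
    R.den = 1 ∧ ∃ t : ℕ, ∃ m : ℤ, (R : ℝ) ^ t * y = m := by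
  have hR1 : (1 : ℝ) < R := by exact_mod_cast hR
  set u : ℕ → ℤ := fun t => round ((R : ℝ) ^ t * y) with hu
  set δ : ℕ → ℝ := fun t => (R : ℝ) ^ t * y - u t with hδ
  have hRAB : (R.den : ℝ) * R = R.num := by
    have := Rat.den_mul_eq_num R
    exact_mod_cast this
  have e1 : ∀ t, ((R.den * u (t + 1) - R.num * u t : ℤ) : ℝ) = -(R.den * δ (t + 1)) + R.num * δ t := by
    intro t
    simp only [hδ]
    push_cast
    rw [← hRAB]
    ring
  have h2 : Tendsto (fun t => ((R.den * u (t + 1) - R.num * u t : ℤ) : ℝ)) atTop (𝓝 0) := by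
    simp only [e1]
    have h3 : Tendsto (fun t => δ (t + 1)) atTop (𝓝 0) := h.comp (tendsto_add_atTop_nat 1)
    have h4 := ((h3.const_mul (R.den : ℝ)).neg).add (h.const_mul (R.num : ℝ))
    simpa using h4
  obtain ⟨t₀, ht₀⟩ := eventually_atTop.1
    ((h2.eventually (Metric.ball_mem_nhds 0 (by norm_num : (0 : ℝ) < 1))))
  have e2 : ∀ t, t₀ ≤ t → R.den * u (t + 1) - R.num * u t = 0 := by
    intro t ht
    have h5 := ht₀ t ht
    rw [dist_zero_right, Real.norm_eq_abs, ← Int.cast_abs] at h5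
    have h6 : |R.den * u (t + 1) - R.num * u t| < 1 := by exact_mod_cast h5
    exact Int.abs_lt_one_iff.1 h6
  have e3 : ∀ l, (R.den : ℤ) ^ l * u (t₀ + l) = R.num ^ l * u t₀ := by
    intro l
    induction l with
    | zero => simp
    | succ l ih =>
      have h7 := e2 (t₀ + l) (by omega)
      rw [pow_succ, pow_succ, mul_assoc, show t₀ + (l + 1) = t₀ + l + 1 by ring,
        show (R.den : ℤ) * u (t₀ + l + 1) = R.num * u (t₀ + l) by linarith]
      calc (R.den : ℤ) ^ l * (R.num * u (t₀ + l)) = R.num * ((R.den : ℤ) ^ l * u (t₀ + l)) := by ring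
        _ = _ := by rw [ih]; ring
  have hden0 : (0 : ℝ) < R.den := by exact_mod_cast R.pos
  have e4 : ∀ l, (u (t₀ + l) : ℝ) = (R : ℝ) ^ l * u t₀ := by
    intro l
    have h8 : ((R.den : ℝ)) ^ l * u (t₀ + l) = (R.num : ℝ) ^ l * u t₀ := by exact_mod_cast e3 l
    rw [← hRAB, mul_pow, mul_assoc] at h8
    exact mul_left_cancel₀ (by positivity) h8
  have e5 : ∀ l, δ (t₀ + l) = (R : ℝ) ^ l * δ t₀ := by
    intro l
    simp only [hδ]
    rw [e4 l, pow_add]
    ring
  have e6 : δ t₀ = 0 := by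
    by_contra hne
    have hl : Tendsto (fun l : ℕ => (R : ℝ) ^ l * |δ t₀|) atTop atTop :=
      (tendsto_pow_atTop_atTop_of_one_lt hR1).atTop_mul_const (abs_pos.2 hne)
    obtain ⟨l, hl⟩ := (hl.eventually (eventually_gt_atTop (1 : ℝ))).exists
    have h9 : |δ (t₀ + l)| ≤ 1 / 2 := abs_sub_round _
    rw [e5, abs_mul, abs_of_pos (by positivity)] at h9
    linarith
  have e7 : (R : ℝ) ^ t₀ * y = u t₀ := by
    simp only [hδ] at e6
    linarith
  have hu0 : u t₀ ≠ 0 := by
    intro h0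
    rw [h0] at e7
    have : (R : ℝ) ^ t₀ * y ≠ 0 := mul_ne_zero (by positivity) hy
    exact this (by simpa using e7)
  refine ⟨?_, t₀, u t₀, e7⟩
  by_contra hne
  have hd2 : 2 ≤ R.den := by
    have := R.pos
    omega
  have hdvd : ∀ l : ℕ, (R.den : ℤ) ^ l ∣ u t₀ := by
    intro l
    have h10 : (R.den : ℤ) ^ l ∣ R.num ^ l * u t₀ := ⟨_, (e3 l).symm⟩
    have hcop : IsCoprime ((R.den : ℤ) ^ l) (R.num ^ l) := by
      apply IsCoprime.pow
      rw [Int.isCoprime_iff_gcd_eq_one]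
      have := R.reduced
      rw [Nat.coprime_comm] at this
      simpa [Int.gcd] using this
    exact hcop.dvd_of_dvd_mul_left h10
  have hle := Int.le_of_dvd (abs_pos.2 hu0) ((dvd_abs _ _).2 (hdvd (u t₀).natAbs))
  have h11 : ((u t₀).natAbs : ℤ) < (R.den : ℤ) ^ (u t₀).natAbs := by
    have : (u t₀).natAbs < R.den ^ (u t₀).natAbs := Nat.lt_pow_self (by omega)
    exact_mod_cast this
  rw [Int.natCast_natAbs] at h11
  linarith

/-- The zeros of the Fourier transform. -/
lemma zero_form [Fact (1 < β)] {ξ : ℝ} (h : nuhat β ξ = 0) :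
    ∃ (j : ℕ) (p : ℤ), 1 ≤ j ∧ ξ = β ^ j * ((2 * p + 1) / 2) := by
  have hβ : 1 < β := Fact.out
  have hβ0 : β ≠ 0 := by positivity
  have h1 : Tendsto (fun m : ℕ => nuhat β ((β ^ m)⁻¹ * ξ)) atTop (𝓝 1) := by
    have h2 : Tendsto (fun m : ℕ => (β ^ m)⁻¹ * ξ) atTop (𝓝 (0 * ξ)) :=
      (tendsto_inv_atTop_zero.comp (tendsto_pow_atTop_atTop_of_one_lt hβ)).mul_const ξ
    rw [zero_mul] at h2
    have h3 := ((contDiff_nuhat (β := β) (n := 0)).continuous.tendsto 0).comp h2
    rw [nuhat_zero] at h3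
    exact h3
  obtain ⟨m, hm⟩ := (h1.eventually_ne one_ne_zero).exists
  have h4 := nuhat_pow (β := β) m ((β ^ m)⁻¹ * ξ)
  rw [← mul_assoc, mul_inv_cancel₀ (by positivity), one_mul, h] at h4
  have h5 : kk β m ((β ^ m)⁻¹ * ξ) = 0 := by
    rcases mul_eq_zero.1 h4.symm with h6 | h6
    · exact h6
    · exact absurd h6 hm
  unfold kk at h5
  rw [Finset.prod_eq_zero_iff] at h5
  obtain ⟨i, hi, h6⟩ := h5
  rw [Finset.mem_range] at hi
  have h7 : |Real.cos (Real.pi * (β ^ i * ((β ^ m)⁻¹ * ξ)))| = 0 := by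
    rw [← norm_half, h6, norm_zero]
  rw [abs_eq_zero, Real.cos_eq_zero_iff] at h7
  obtain ⟨p, hp⟩ := h7
  refine ⟨m - i, p, by omega, ?_⟩
  have h8 : β ^ i * ((β ^ m)⁻¹ * ξ) = (2 * p + 1) / 2 := by
    have hpi := Real.pi_pos.ne'
    apply mul_left_cancel₀ hpi
    rw [hp]
    ring
  rw [← h8, ← mul_assoc, ← mul_assoc, ← pow_add, Nat.sub_add_cancel hi.le, mul_inv_cancel₀ (by positivity),
    one_mul]

lemma prod_ge {a : ℕ → ℝ} (h0 : ∀ i, 0 ≤ a i) (h1 : ∀ i, a i ≤ 1) (n : ℕ) :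
    1 - ∑ i ∈ Finset.range n, (1 - a i) ≤ ∏ i ∈ Finset.range n, a i := by
  induction n with
  | zero => simp
  | succ n ih =>
    rw [Finset.sum_range_succ, Finset.prod_range_succ]
    have h2 : ∏ i ∈ Finset.range n, a i ≤ 1 := Finset.prod_le_one (fun i _ => h0 i) (fun i _ => h1 i)
    have h3 : 0 ≤ ∏ i ∈ Finset.range n, a i := Finset.prod_nonneg fun i _ => h0 i
    nlinarith [h0 n, h1 n]

lemma norm_kk (n : ℕ) (ξ : ℝ) : ‖kk β n ξ‖ = ∏ i ∈ Finset.range n, |Real.cos (Real.pi * (β ^ i * ξ))| := by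
  unfold kk
  rw [norm_prod]
  exact Finset.prod_congr rfl fun i _ => norm_half _

/-- `2 δ² ≤ 1 - |cos π t|` for the distance `δ` of `t` to the nearest integer. -/
lemma sq_round_le (t : ℝ) : 2 * (t - round t) ^ 2 ≤ 1 - |Real.cos (Real.pi * t)| := by
  have h1 : |t - round t| ≤ 1 / 2 := abs_sub_round t
  have h2 : |Real.cos (Real.pi * t)| = |Real.cos (Real.pi * (t - round t))| := by
    rw [mul_sub, mul_comm Real.pi (round t : ℝ), Real.cos_sub_int_mul_pi, abs_mul]
    simp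
  have h3 : |Real.pi * (t - round t)| ≤ Real.pi / 2 := by
    rw [abs_mul, abs_of_pos Real.pi_pos]
    nlinarith [Real.pi_pos]
  have h4 : 0 ≤ Real.cos (Real.pi * (t - round t)) := by
    apply Real.cos_nonneg_of_neg_pi_div_two_le_of_le
    · linarith [(abs_le.1 h3).1]
    · exact (abs_le.1 h3).2
  rw [h2, abs_of_nonneg h4]
  have h5 := Real.cos_le_one_sub_mul_cos_sq (x := Real.pi * (t - round t)) (by linarith [Real.pi_pos])
  have h6 : 2 / Real.pi ^ 2 * (Real.pi * (t - round t)) ^ 2 = 2 * (t - round t) ^ 2 := by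
    have := Real.pi_pos.ne'
    field_simp
  linarith

/-- If `β` is not an integer `kk β n ζ` tends to zero for all `ζ ≠ 0`. -/
lemma tendsto_kk [Fact (1 < β)] (hβ2 : β < 2) (hac : bernoulliConv β ≪ volume) {ζ : ℝ} (hζ : ζ ≠ 0) :
    Tendsto (fun n => kk β n ζ) atTop (𝓝 0) := by
  have hβ : 1 < β := Fact.out
  have hβ0 : 0 < β := by linarith
  have hpow : ∀ {y : ℝ}, y ≠ 0 → Tendsto (fun n : ℕ => β ^ n * y) atTop (cocompact ℝ) := by
    intro y hy
    rw [← Metric.cobounded_eq_cocompact, ← tendsto_norm_atTop_iff_cobounded]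
    simp only [norm_mul, norm_pow, Real.norm_eq_abs, abs_of_pos hβ0]
    exact (tendsto_pow_atTop_atTop_of_one_lt hβ).atTop_mul_const (abs_pos.2 hy)
  have hRL : ∀ {y : ℝ}, y ≠ 0 → Tendsto (fun n : ℕ => kk β n y * nuhat β y) atTop (𝓝 0) := by
    intro y hy
    have := (tendsto_nuhat hac).comp (hpow hy)
    refine this.congr fun n => ?_
    simp only [Function.comp_apply]
    exact nuhat_pow n y
  by_cases hz : nuhat β ζ = 0
  swap
  · have h := (hRL hζ).mul_const (nuhat β ζ)⁻¹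
    rw [zero_mul] at h
    refine h.congr fun n => ?_
    rw [mul_assoc, mul_inv_cancel₀ hz, mul_one]
  -- the case of a zero
  by_contra hnot
  have hanti : Antitone fun n => ‖kk β n ζ‖ := by
    apply antitone_nat_of_succ_le
    intro n
    rw [kk_succ, norm_mul]
    exact mul_le_of_le_one_right (norm_nonneg _) (norm_half_le _)
  set η : ℝ := ⨅ n, ‖kk β n ζ‖ with hη
  have hbdd : BddBelow (range fun n => ‖kk β n ζ‖) := ⟨0, by rintro _ ⟨n, rfl⟩; exact norm_nonneg _⟩
  have hlim : Tendsto (fun n => ‖kk β n ζ‖) atTop (𝓝 η) := tendsto_atTop_ciInf hanti hbdd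
  have hη0 : 0 ≤ η := le_ciInf fun n => norm_nonneg _
  have hηpos : 0 < η := by
    rcases hη0.lt_or_eq with h | h
    · exact h
    · exfalso
      apply hnot
      rw [← h] at hlim
      exact tendsto_zero_iff_norm_tendsto_zero.2 hlim
  have hge : ∀ n, η ≤ ‖kk β n ζ‖ := fun n => ciInf_le hbdd n
  set a : ℕ → ℝ := fun i => |Real.cos (Real.pi * (β ^ i * ζ))| with ha
  have ha0 : ∀ i, 0 ≤ a i := fun i => abs_nonneg _
  have ha1 : ∀ i, a i ≤ 1 := fun i => Real.abs_cos_le_one _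
  have hsum : Summable fun i => 1 - a i := by
    apply summable_of_sum_range_le (c := -Real.log η) (fun i => by linarith [ha1 i])
    intro n
    have h1 : η ≤ Real.exp (-∑ i ∈ Finset.range n, (1 - a i)) := by
      refine (hge n).trans ?_
      rw [norm_kk, ← Finset.sum_neg_distrib, Real.exp_sum]
      apply Finset.prod_le_prod (fun i _ => ha0 i)
      intro i _
      have := Real.add_one_le_exp (-(1 - a i))
      linarith
    have h2 := Real.log_le_log hηpos h1
    rw [Real.log_exp] at h2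
    linarith
  set a' : ℕ → ℝ := fun i => |Real.cos (Real.pi * (2 * (β ^ i * ζ)))| with ha'
  have ha0' : ∀ i, 0 ≤ a' i := fun i => abs_nonneg _
  have ha1' : ∀ i, a' i ≤ 1 := fun i => Real.abs_cos_le_one _
  have haa : ∀ i, 1 - a' i ≤ 4 * (1 - a i) := by
    intro i
    have h1 : 2 * a i ^ 2 - 1 ≤ a' i := by
      simp only [ha, ha']
      rw [sq_abs, show Real.pi * (2 * (β ^ i * ζ)) = 2 * (Real.pi * (β ^ i * ζ)) by ring, Real.cos_two_mul]
      exact le_abs_self _
    nlinarith [ha0 i, ha1 i]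
  have hsum' : Summable fun i => 1 - a' i :=
    Summable.of_nonneg_of_le (fun i => by linarith [ha1' i]) haa (hsum.mul_left 4)
  -- a tail of the sum is at most `1/2`
  obtain ⟨i₀, hi₀⟩ : ∃ i₀ : ℕ, ∀ n, ∑ i ∈ Finset.range n, (1 - a' (i + i₀)) ≤ 1 / 2 := by
    have h1 := tendsto_sum_nat_add (fun i => 1 - a' i)
    obtain ⟨i₀, h2⟩ := (h1.eventually (gt_mem_nhds (by norm_num : (0 : ℝ) < 1 / 2))).exists
    refine ⟨i₀, fun n => ?_⟩
    have h3 : Summable fun i => 1 - a' (i + i₀) := (summable_nat_add_iff i₀).2 hsum'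
    exact (h3.sum_le_tsum _ fun i _ => by linarith [ha1' (i + i₀)]).trans h2.le
  have hprod : ∀ n, 1 / 2 ≤ ‖kk β n (2 * (β ^ i₀ * ζ))‖ := by
    intro n
    rw [norm_kk]
    have h1 := prod_ge (a := fun i => a' (i + i₀)) (fun i => ha0' _) (fun i => ha1' _) n
    have h2 : ∏ i ∈ Finset.range n, a' (i + i₀) =
        ∏ i ∈ Finset.range n, |Real.cos (Real.pi * (β ^ i * (2 * (β ^ i₀ * ζ))))| := by
      apply Finset.prod_congr rfl
      intro i _
      simp only [ha']
      rw [pow_add]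
      congr 3
      ring
    rw [← h2]
    linarith [hi₀ n]
  have hz2 : nuhat β (2 * (β ^ i₀ * ζ)) = 0 := by
    have h1 := (hRL (y := 2 * (β ^ i₀ * ζ)) (by positivity)).norm
    rw [norm_zero] at h1
    have h2 : ∀ n, 1 / 2 * ‖nuhat β (2 * (β ^ i₀ * ζ))‖ ≤ ‖kk β n (2 * (β ^ i₀ * ζ)) * nuhat β (2 * (β ^ i₀ * ζ))‖ := by
      intro n
      rw [norm_mul]
      exact mul_le_mul_of_nonneg_right (hprod n) (norm_nonneg _)
    have h3 := ge_of_tendsto' h1 h2
    have h4 := norm_nonneg (nuhat β (2 * (β ^ i₀ * ζ)))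
    have h5 : ‖nuhat β (2 * (β ^ i₀ * ζ))‖ = 0 := by linarith
    exact norm_eq_zero.1 h5
  -- a power of `β` is rational
  obtain ⟨N, R, hN, hR⟩ : ∃ (N : ℕ) (R : ℚ), 1 ≤ N ∧ β ^ N = R := by
    obtain ⟨j, p, hj, hp⟩ := zero_form hz
    obtain ⟨j', q, hj', hq⟩ := zero_form hz2
    have e1 : β ^ (i₀ + j) * (2 * (2 * p + 1)) = β ^ j' * (2 * q + 1) := by
      rw [hp] at hq
      rw [pow_add]
      linear_combination 2 * hq
    have hp0 : (2 * (p : ℝ) + 1) ≠ 0 := by
      have : (2 * p + 1 : ℤ) ≠ 0 := by omega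
      exact_mod_cast this
    have hq0 : (2 * (q : ℝ) + 1) ≠ 0 := by
      have : (2 * q + 1 : ℤ) ≠ 0 := by omega
      exact_mod_cast this
    rcases lt_trichotomy (i₀ + j) j' with hlt | heq | hgt
    · refine ⟨j' - (i₀ + j), (2 * (2 * p + 1)) / (2 * q + 1), by omega, ?_⟩
      push_cast
      rw [eq_div_iff hq0]
      have h1 : β ^ j' = β ^ (i₀ + j) * β ^ (j' - (i₀ + j)) := by
        rw [← pow_add]; congr 1; omega
      rw [h1, mul_assoc] at e1
      exact (mul_left_cancel₀ (by positivity) e1).symm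
    · exfalso
      rw [heq] at e1
      have h1 := mul_left_cancel₀ (by positivity) e1
      have h2 : (2 * (2 * p + 1) : ℤ) = 2 * q + 1 := by exact_mod_cast h1
      omega
    · refine ⟨(i₀ + j) - j', (2 * q + 1) / (2 * (2 * p + 1)), by omega, ?_⟩
      push_cast
      rw [eq_div_iff (by positivity)]
      have h1 : β ^ (i₀ + j) = β ^ j' * β ^ (i₀ + j - j') := by
        rw [← pow_add]; congr 1; omega
      rw [h1, mul_assoc] at e1
      exact mul_left_cancel₀ (by positivity) e1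
  -- distances to the integers
  have hdist : Tendsto (fun i : ℕ => β ^ i * ζ - round (β ^ i * ζ)) atTop (𝓝 0) := by
    have h1 : Tendsto (fun i => 1 - a i) atTop (𝓝 0) := hsum.tendsto_atTop_zero
    have h2 : Tendsto (fun i : ℕ => (β ^ i * ζ - round (β ^ i * ζ)) ^ 2) atTop (𝓝 0) := by
      refine squeeze_zero (fun i => sq_nonneg _) (fun i => ?_) h1
      have := sq_round_le (β ^ i * ζ)
      have h3 := sq_nonneg (β ^ i * ζ - round (β ^ i * ζ))
      simp only [ha]
      linarith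
    have h3 := h2.sqrt
    rw [Real.sqrt_zero] at h3
    simp only [Real.sqrt_sq_eq_abs] at h3
    exact (tendsto_zero_iff_abs_tendsto_zero _).2 h3
  have hR1 : 1 < R := by
    have h1 : (1 : ℝ) < R := by
      rw [← hR]
      exact one_lt_pow₀ hβ (by omega)
    exact_mod_cast h1
  have hrig : ∀ i : ℕ, R.den = 1 ∧ ∃ t : ℕ, ∃ m : ℤ, (R : ℝ) ^ t * (β ^ i * ζ) = m := by
    intro i
    apply rigid hR1 (mul_ne_zero (by positivity) hζ)
    have h1 : Tendsto (fun t : ℕ => N * t + i) atTop atTop := by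
      apply tendsto_atTop_mono (f := fun t : ℕ => t) _ tendsto_id
      intro t
      nlinarith
    refine (hdist.comp h1).congr fun t => ?_
    simp only [Function.comp_apply]
    have e : β ^ (N * t + i) * ζ = (R : ℝ) ^ t * (β ^ i * ζ) := by
      rw [← hR, ← pow_mul, ← mul_assoc, ← pow_add]
    rw [e]
  obtain ⟨hden, t1, m1, h1⟩ := hrig 0
  obtain ⟨-, t2, m2, h2⟩ := hrig 1
  rw [pow_zero, one_mul] at h1
  rw [pow_one] at h2
  have hR0 : (0 : ℝ) < R := by
    have : (1 : ℝ) < R := by exact_mod_cast hR1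
    linarith
  have hm1 : (m1 : ℝ) ≠ 0 := by
    rw [← h1]
    exact mul_ne_zero (by positivity) hζ
  -- `β` is rational
  obtain ⟨q, hq⟩ : ∃ q : ℚ, β = q := by
    refine ⟨m2 * R ^ t1 / (m1 * R ^ t2), ?_⟩
    push_cast
    rw [eq_div_iff (by positivity), ← h1, ← h2]
    ring
  have hqN : q ^ N = R := by
    have : ((q ^ N : ℚ) : ℝ) = R := by
      push_cast
      rw [← hq, hR]
    exact_mod_cast this
  have hqd : q.den = 1 := by
    have h3 : (q ^ N).den = 1 := by rw [hqN, hden]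
    rw [Rat.den_pow] at h3
    exact (Nat.pow_eq_one.1 h3).resolve_right (by omega)
  have hqi : q = q.num := ((Rat.den_eq_one_iff q).1 hqd).symm
  have h4 : (1 : ℝ) < q.num := by
    have : (1 : ℝ) < (q : ℝ) := hq ▸ hβ
    rw [hqi] at this
    exact_mod_cast this
  have h5 : (q.num : ℝ) < 2 := by
    have : (q : ℝ) < 2 := hq ▸ hβ2
    rw [hqi] at this
    exact_mod_cast this
  have h6 : 1 < q.num := by exact_mod_cast h4
  have h7 : q.num < 2 := by exact_mod_cast h5
  omega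

end Pool.Agent.D0H98.BC
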