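import Mathlib

/-!
# Bernoulli convolutions: definitions and self-similarity

Definitions and the self-similarity are taken from the starting file
`Pool.Agent.Results.MP_ddcbd8_an.SingularDensities`.
-/

set_option autoImplicit false


open MeasureTheory Filter Topology Set
open scoped ENNReal

namespace Pool.Agent.D0H98.BC

/-- The fair coin: the uniform probability measure on `{false, true}`. -/
noncomputable def coin : Measure Bool :=
  (2⁻¹ : ℝ≥0∞) • Measure.dirac false + (2⁻¹ : ℝ≥0∞) • Measure.dirac true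

/-- The digit `0` or `1`. -/
def dig (b : Bool) : ℝ := if b then 1 else 0

/-- `∑_{k ≥ 1} a_k β^(-k)` (the digits are indexed from `0` here). -/
noncomputable def expansion (β : ℝ) (a : ℕ → Bool) : ℝ := ∑' k : ℕ, dig (a k) * (β⁻¹) ^ (k + 1)

/-- The Bernoulli convolution: the law of `∑_{k ≥ 1} a_k β^(-k)` with `a_k` independent and
uniform on `{0, 1}`. -/
noncomputable def bernoulliConv (β : ℝ) : Measure ℝ :=
  (Measure.infinitePi (fun _ : ℕ => coin)).map (expansion β)

instance : IsProbabilityMeasure coin := by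
  constructor
  simp [coin, ENNReal.inv_two_add_inv_two]

/-- Prepend a digit. -/
def consSeq (p : Bool × (ℕ → Bool)) : ℕ → Bool
  | 0 => p.1
  | n + 1 => p.2 n

lemma measurable_consSeq : Measurable consSeq := by
  rw [measurable_pi_iff]
  intro n
  cases n with
  | zero => exact measurable_fst
  | succ n => exact (measurable_pi_apply n).comp measurable_snd

lemma map_consSeq :
    (coin.prod (Measure.infinitePi (fun _ : ℕ => coin))).map consSeq =
      Measure.infinitePi (fun _ : ℕ => coin) := by
  classical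
  apply Measure.eq_infinitePi
  intro s t ht
  have hmeas : MeasurableSet (Set.pi (s : Set ℕ) t) :=
    MeasurableSet.pi (Finset.countable_toSet s) fun i _ => ht i
  rw [Measure.map_apply measurable_consSeq hmeas]
  set s' : Finset ℕ := s.preimage Nat.succ (Nat.succ_injective.injOn) with hs'
  set t0 : Set Bool := if 0 ∈ s then t 0 else univ with ht0
  have hpre : consSeq ⁻¹' (Set.pi (s : Set ℕ) t) =
      t0 ×ˢ (Set.pi (s' : Set ℕ) fun i => t (i + 1)) := by
    ext ⟨b, a⟩
    simp only [mem_preimage, Set.mem_pi, mem_prod, Finset.mem_coe]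
    constructor
    · intro h
      refine ⟨?_, ?_⟩
      · rw [ht0]
        split_ifs with h0
        · exact h 0 h0
        · exact mem_univ _
      · intro i hi
        have := h (i + 1) (by simpa [hs'] using hi)
        exact this
    · rintro ⟨h1, h2⟩ i hi
      cases i with
      | zero =>
        rw [ht0, if_pos hi] at h1
        exact h1
      | succ i =>
        exact h2 i (by simpa [hs'] using hi)
  rw [hpre, Measure.prod_prod, Measure.infinitePi_pi (fun _ : ℕ => coin) (fun i _ => ht (i + 1))]
  have himg : ∏ i ∈ s', coin (t (i + 1)) = ∏ i ∈ s.erase 0, coin (t i) := by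
    have e : s.erase 0 = s'.map ⟨Nat.succ, Nat.succ_injective⟩ := by
      ext i
      simp only [Finset.mem_erase, Finset.mem_map, Function.Embedding.coeFn_mk]
      constructor
      · rintro ⟨h0, h1⟩
        obtain ⟨j, rfl⟩ := Nat.exists_eq_succ_of_ne_zero h0
        exact ⟨j, by simpa [hs'] using h1, rfl⟩
      · rintro ⟨j, hj, rfl⟩
        exact ⟨Nat.succ_ne_zero j, by simpa [hs'] using hj⟩
    rw [e, Finset.prod_map]
    rfl
  rw [himg]
  by_cases h0 : 0 ∈ s
  · rw [ht0, if_pos h0, Finset.mul_prod_erase s (fun i => coin (t i)) h0]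
  · rw [ht0, if_neg h0, measure_univ, one_mul, Finset.erase_eq_of_notMem h0]

variable {β : ℝ}

lemma dig_nonneg (b : Bool) : 0 ≤ dig b := by
  unfold dig; split_ifs <;> norm_num

lemma dig_le_one (b : Bool) : dig b ≤ 1 := by
  unfold dig; split_ifs <;> norm_num

lemma summable_geo (hβ : 1 < β) : Summable fun k : ℕ => (β⁻¹) ^ (k + 1) := by
  have h := summable_geometric_of_lt_one (r := β⁻¹) (by positivity) (inv_lt_one_of_one_lt₀ hβ)
  exact (summable_nat_add_iff 1).mpr h

lemma tsum_geo (hβ : 1 < β) : ∑' k : ℕ, (β⁻¹) ^ (k + 1) = 1 / (β - 1) := by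
  simp only [pow_succ]
  rw [tsum_mul_right, tsum_geometric_of_lt_one (by positivity) (inv_lt_one_of_one_lt₀ hβ)]
  have h1 : β - 1 ≠ 0 := by linarith
  have h2 : β ≠ 0 := by linarith
  have h3 : 1 - β⁻¹ = (β - 1) / β := by field_simp
  rw [h3]
  field_simp

lemma summable_exp (hβ : 1 < β) (a : ℕ → Bool) :
    Summable fun k : ℕ => dig (a k) * (β⁻¹) ^ (k + 1) := by
  have hb : 0 < β⁻¹ := by positivity
  refine Summable.of_nonneg_of_le (fun k => mul_nonneg (dig_nonneg _) (by positivity))
    (fun k => ?_) (summable_geo hβ)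
  calc dig (a k) * (β⁻¹) ^ (k + 1) ≤ 1 * (β⁻¹) ^ (k + 1) := by
        gcongr
        exact dig_le_one _
    _ = _ := one_mul _

lemma expansion_mem (hβ : 1 < β) (a : ℕ → Bool) : expansion β a ∈ Icc 0 (1 / (β - 1)) := by
  have hb : 0 < β⁻¹ := by positivity
  refine ⟨tsum_nonneg fun k => mul_nonneg (dig_nonneg _) (by positivity), ?_⟩
  rw [← tsum_geo hβ]
  refine (summable_exp hβ a).tsum_le_tsum (fun k => ?_) (summable_geo hβ)
  calc dig (a k) * (β⁻¹) ^ (k + 1) ≤ 1 * (β⁻¹) ^ (k + 1) := by
        gcongr
        exact dig_le_one _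
    _ = _ := one_mul _

lemma continuous_expansion (hβ : 1 < β) : Continuous (expansion β) := by
  have hb : 0 < β⁻¹ := by positivity
  refine continuous_tsum (fun k => ?_) (summable_geo hβ) (fun k a => ?_)
  · refine Continuous.mul ?_ continuous_const
    exact (continuous_of_discreteTopology (f := dig)).comp (continuous_apply k)
  · rw [Real.norm_eq_abs, abs_of_nonneg (mul_nonneg (dig_nonneg _) (by positivity))]
    calc dig (a k) * (β⁻¹) ^ (k + 1) ≤ 1 * (β⁻¹) ^ (k + 1) := by
          gcongr
          exact dig_le_one _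
      _ = _ := one_mul _

lemma expansion_cons (hβ : 1 < β) (b : Bool) (a : ℕ → Bool) :
    expansion β (consSeq (b, a)) = (dig b + expansion β a) / β := by
  unfold expansion
  rw [(summable_exp hβ (consSeq (b, a))).tsum_eq_zero_add]
  simp only [consSeq]
  have e : ∀ k : ℕ, dig (a k) * β⁻¹ ^ (k + 1 + 1) = (dig (a k) * β⁻¹ ^ (k + 1)) * β⁻¹ := by
    intro k
    rw [pow_succ β⁻¹ (k + 1)]
    ring
  simp only [e]
  rw [tsum_mul_right]
  have h2 : β ≠ 0 := by linarith
  rw [zero_add, pow_one, add_div, div_eq_mul_inv, div_eq_mul_inv]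

instance isProb (β : ℝ) [Fact (1 < β)] : IsProbabilityMeasure (bernoulliConv β) :=
  Measure.isProbabilityMeasure_map (continuous_expansion Fact.out).measurable.aemeasurable

/-- Self-similarity of the Bernoulli convolution. -/
lemma self_similar (hβ : 1 < β) {A : Set ℝ} (hA : MeasurableSet A) :
    bernoulliConv β A = 2⁻¹ * bernoulliConv β {x | x / β ∈ A} +
      2⁻¹ * bernoulliConv β {x | (1 + x) / β ∈ A} := by
  have hc := (continuous_expansion hβ).measurable
  have hm0 : Measurable fun x : ℝ => x / β := by fun_prop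
  have hm1 : Measurable fun x : ℝ => (1 + x) / β := by fun_prop
  have hA0 : MeasurableSet {x : ℝ | x / β ∈ A} := hm0 hA
  have hA1 : MeasurableSet {x : ℝ | (1 + x) / β ∈ A} := hm1 hA
  unfold bernoulliConv
  rw [Measure.map_apply hc hA, Measure.map_apply hc hA0, Measure.map_apply hc hA1]
  set P := Measure.infinitePi (fun _ : ℕ => coin) with hP
  have h1 : P (expansion β ⁻¹' A) = (coin.prod P) (consSeq ⁻¹' (expansion β ⁻¹' A)) := by
    rw [← Measure.map_apply measurable_consSeq (hc hA), map_consSeq]
  rw [h1, Measure.prod_apply (measurable_consSeq (hc hA))]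
  unfold coin
  rw [lintegral_add_measure, lintegral_smul_measure, lintegral_smul_measure, lintegral_dirac,
    lintegral_dirac]
  have e0 : Prod.mk false ⁻¹' (consSeq ⁻¹' (expansion β ⁻¹' A)) =
      expansion β ⁻¹' {x | x / β ∈ A} := by
    ext a
    simp only [mem_preimage, mem_ofPred_eq]
    rw [expansion_cons hβ]
    simp [dig]
  have e1 : Prod.mk true ⁻¹' (consSeq ⁻¹' (expansion β ⁻¹' A)) =
      expansion β ⁻¹' {x | (1 + x) / β ∈ A} := by
    ext a
    simp only [mem_preimage, mem_ofPred_eq]
    rw [expansion_cons hβ]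
    simp [dig]
  rw [e0, e1]
  rfl


end Pool.Agent.D0H98.BC
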