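import Pool.Agent.D0H98.BC.Arith

/-!
# Cut-off functions and narrow bumps
-/

set_option autoImplicit false

open MeasureTheory Filter Topology Set
open scoped FourierTransform

namespace Pool.Agent.D0H98.BC

variable {β : ℝ}

/-- `q` is twice continuously differentiable with derivatives `q1`, `q2`; all three functions are bounded and
integrable. -/
structure D2 (q q1 q2 : ℝ → ℂ) : Prop where
  h1 : ∀ t, HasDerivAt q (q1 t) t
  h2 : ∀ t, HasDerivAt q1 (q2 t) t
  c2 : Continuous q2
  i0 : Integrable q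
  i1 : Integrable q1
  i2 : Integrable q2
  B : ∃ B, ∀ t, ‖q t‖ ≤ B ∧ ‖q1 t‖ ≤ B ∧ ‖q2 t‖ ≤ B

lemma D2.c0 {q q1 q2 : ℝ → ℂ} (h : D2 q q1 q2) : Continuous q :=
  continuous_iff_continuousAt.2 fun t => (h.h1 t).continuousAt

lemma D2.c1 {q q1 q2 : ℝ → ℂ} (h : D2 q q1 q2) : Continuous q1 :=
  continuous_iff_continuousAt.2 fun t => (h.h2 t).continuousAt

lemma D2.of_contDiff {q : ℝ → ℂ} (h : ContDiff ℝ 2 q) (hc : HasCompactSupport q) :
    D2 q (deriv q) (deriv (deriv q)) := by
  have h1 : ContDiff ℝ 1 (deriv q) := by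
    have h' : ContDiff ℝ (1 + 1) q := by
      rw [one_add_one_eq_two]
      exact h
    exact (contDiff_succ_iff_deriv.1 h').2.2
  have h2 : ContDiff ℝ 0 (deriv (deriv q)) := by
    have h' : ContDiff ℝ (0 + 1) (deriv q) := by
      rw [zero_add]
      exact h1
    exact (contDiff_succ_iff_deriv.1 h').2.2
  have hc1 : HasCompactSupport (deriv q) := hc.deriv
  have hc2 : HasCompactSupport (deriv (deriv q)) := hc1.deriv
  obtain ⟨B0, hB0⟩ := hc.exists_bound_of_continuous h.continuous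
  obtain ⟨B1, hB1⟩ := hc1.exists_bound_of_continuous h1.continuous
  obtain ⟨B2, hB2⟩ := hc2.exists_bound_of_continuous h2.continuous
  refine ⟨fun t => ?_, fun t => ?_, h2.continuous, h.continuous.integrable_of_hasCompactSupport hc,
    h1.continuous.integrable_of_hasCompactSupport hc1, h2.continuous.integrable_of_hasCompactSupport hc2,
    max B0 (max B1 B2), fun t => ⟨?_, ?_, ?_⟩⟩
  · exact (h.differentiable (by norm_num) t).hasDerivAt
  · exact (h1.differentiable (by norm_num) t).hasDerivAt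
  · exact (hB0 t).trans (le_max_left _ _)
  · exact (hB1 t).trans ((le_max_left _ _).trans (le_max_right _ _))
  · exact (hB2 t).trans ((le_max_right _ _).trans (le_max_right _ _))

/-- The cut-off function. -/
noncomputable def bumpR : ContDiffBump (0 : ℝ) := ⟨1 / 2, 1, by norm_num, by norm_num⟩

/-- The cut-off function: smooth, `1` on `[-1/2, 1/2]` and `0` outside `(-1, 1)`. -/
noncomputable def chi (t : ℝ) : ℂ := ((bumpR t : ℝ) : ℂ)

lemma contDiff_chi {n : ℕ∞} : ContDiff ℝ n chi := by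
  unfold chi
  exact Complex.ofRealCLM.contDiff.comp bumpR.contDiff

lemma chi_one {t : ℝ} (ht : |t| ≤ 1 / 2) : chi t = 1 := by
  unfold chi
  rw [bumpR.one_of_mem_closedBall]
  · simp
  · rw [Metric.mem_closedBall, dist_zero_right, Real.norm_eq_abs]
    exact ht

lemma chi_zero {t : ℝ} (ht : 1 ≤ |t|) : chi t = 0 := by
  unfold chi
  rw [bumpR.zero_of_le_dist]
  · simp
  · rw [dist_zero_right, Real.norm_eq_abs]
    exact ht

lemma norm_chi_le (t : ℝ) : ‖chi t‖ ≤ 1 := by
  unfold chi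
  rw [Complex.norm_real, Real.norm_of_nonneg bumpR.nonneg]
  exact bumpR.le_one

lemma hasCompactSupport_chi : HasCompactSupport chi := by
  apply HasCompactSupport.intro (K := Metric.closedBall 0 1) (isCompact_closedBall 0 1)
  intro t ht
  apply chi_zero
  rw [Metric.mem_closedBall, dist_zero_right, Real.norm_eq_abs, not_le] at ht
  exact ht.le

lemma D2_chi : D2 chi (deriv chi) (deriv (deriv chi)) :=
  D2.of_contDiff (contDiff_chi (n := 2)) hasCompactSupport_chi

/-- The norm of the cut-off function. -/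
noncomputable def W : ℝ := (∫ t, ‖chi t‖) + ∫ t, ‖deriv (deriv chi) t‖

lemma W_nonneg : 0 ≤ W := by unfold W; positivity

/-- The Fourier transform of a narrow bump. -/
lemma bump_bound {q q1 q2 : ℝ → ℂ} (hq : D2 q q1 q2) (ζ : ℝ) {ε : ℝ} (hε : 0 < ε) :
    ∃ d₀ : ℝ, 0 < d₀ ∧ ∀ d, 0 < d → d < d₀ → ∀ y,
      ‖F (fun ξ => q ξ * chi ((ξ - ζ) / d)) y‖ ≤ (‖q ζ‖ * W + ε) * w d y := by
  obtain ⟨B, hB⟩ := hq.B
  have hB0 : 0 ≤ B := (norm_nonneg _).trans (hB 0).1
  have hχ := D2_chi
  set χ1 := deriv chi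
  set χ2 := deriv (deriv chi)
  -- the rescaled functions
  set G : ℝ → ℝ → ℂ := fun d η => q (ζ + d * η) * chi η with hG
  set G1 : ℝ → ℝ → ℂ := fun d η => d * q1 (ζ + d * η) * chi η + q (ζ + d * η) * χ1 η with hG1
  set G2 : ℝ → ℝ → ℂ := fun d η => d ^ 2 * q2 (ζ + d * η) * chi η + 2 * d * q1 (ζ + d * η) * χ1 η +
    q (ζ + d * η) * χ2 η with hG2
  have hc0 := hq.c0
  have hc1 := hq.c1
  have hc2 := hq.c2
  have hx0 := hχ.c0
  have hx1 := hχ.c1
  have hx2 := hχ.c2
  have haff : ∀ d η : ℝ, HasDerivAt (fun η : ℝ => ζ + d * η) d η := by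
    intro d η
    simpa using ((hasDerivAt_id η).const_mul d).const_add ζ
  have hq' : ∀ d η : ℝ, HasDerivAt (fun η : ℝ => q (ζ + d * η)) (d * q1 (ζ + d * η)) η := by
    intro d η
    have := (hq.h1 (ζ + d * η)).scomp η (haff d η)
    rw [Complex.real_smul] at this
    exact this
  have hq1' : ∀ d η : ℝ, HasDerivAt (fun η : ℝ => q1 (ζ + d * η)) (d * q2 (ζ + d * η)) η := by
    intro d η
    have := (hq.h2 (ζ + d * η)).scomp η (haff d η)
    rw [Complex.real_smul] at this
    exact this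
  have hd1 : ∀ d η, HasDerivAt (G d) (G1 d η) η := by
    intro d η
    exact (hq' d η).mul (hχ.h1 η)
  have hd2 : ∀ d η, HasDerivAt (G1 d) (G2 d η) η := by
    intro d η
    have h := (((hq1' d η).const_mul (d : ℂ)).mul (hχ.h1 η)).add ((hq' d η).mul (hχ.h2 η))
    refine h.congr_deriv ?_
    simp only [hG2]
    ring
  have hcG : ∀ d, Continuous (G d) := fun d => by simp only [hG]; fun_prop
  have hcG1 : ∀ d, Continuous (G1 d) := fun d => by simp only [hG1]; fun_prop
  have hcG2 : ∀ d, Continuous (G2 d) := fun d => by simp only [hG2]; fun_prop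
  have hb0 : ∀ d η : ℝ, ‖G d η‖ ≤ B * ‖chi η‖ := by
    intro d η
    simp only [hG]
    rw [norm_mul]
    exact mul_le_mul_of_nonneg_right (hB _).1 (norm_nonneg _)
  have hb1 : ∀ d η : ℝ, ‖G1 d η‖ ≤ |d| * (B * ‖chi η‖) + B * ‖χ1 η‖ := by
    intro d η
    simp only [hG1]
    refine (norm_add_le _ _).trans (add_le_add ?_ ?_)
    · rw [norm_mul, norm_mul, Complex.norm_real, Real.norm_eq_abs, mul_assoc]
      exact mul_le_mul_of_nonneg_left (mul_le_mul_of_nonneg_right (hB _).2.1 (norm_nonneg _)) (abs_nonneg _)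
    · rw [norm_mul]
      exact mul_le_mul_of_nonneg_right (hB _).1 (norm_nonneg _)
  have hb2 : ∀ d η : ℝ, ‖G2 d η‖ ≤ |d| ^ 2 * (B * ‖chi η‖) + 2 * |d| * (B * ‖χ1 η‖) + B * ‖χ2 η‖ := by
    intro d η
    simp only [hG2]
    refine (norm_add_le _ _).trans (add_le_add ((norm_add_le _ _).trans (add_le_add ?_ ?_)) ?_)
    · rw [norm_mul, norm_mul, norm_pow, Complex.norm_real, Real.norm_eq_abs, mul_assoc]
      exact mul_le_mul_of_nonneg_left (mul_le_mul_of_nonneg_right (hB _).2.2 (norm_nonneg _)) (by positivity)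
    · rw [norm_mul, norm_mul, norm_mul, Complex.norm_real, Real.norm_eq_abs, Complex.norm_ofNat, mul_assoc (2 * |d|)]
      exact mul_le_mul_of_nonneg_left (mul_le_mul_of_nonneg_right (hB _).2.1 (norm_nonneg _)) (by positivity)
    · rw [norm_mul]
      exact mul_le_mul_of_nonneg_right (hB _).1 (norm_nonneg _)
  have j0 := hχ.i0.norm
  have j1 := hχ.i1.norm
  have j2 := hχ.i2.norm
  have hi0 : ∀ d, Integrable (G d) := fun d =>
    Integrable.mono' (j0.const_mul B) (hcG d).aestronglyMeasurable (Eventually.of_forall (hb0 d))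
  have hi1 : ∀ d, Integrable (G1 d) := fun d =>
    Integrable.mono' (((j0.const_mul B).const_mul |d|).add (j1.const_mul B)) (hcG1 d).aestronglyMeasurable
      (Eventually.of_forall (hb1 d))
  have hi2 : ∀ d, Integrable (G2 d) := fun d =>
    Integrable.mono' ((((j0.const_mul B).const_mul (|d| ^ 2)).add ((j1.const_mul B).const_mul (2 * |d|))).add
      (j2.const_mul B)) (hcG2 d).aestronglyMeasurable (Eventually.of_forall (hb2 d))
  -- the limit of the norms
  have hlim0 : Tendsto (fun d => ∫ η, ‖G d η‖) (𝓝 0) (𝓝 (∫ η, ‖G 0 η‖)) := by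
    apply tendsto_integral_filter_of_dominated_convergence (fun η => B * ‖chi η‖)
    · exact Eventually.of_forall fun d => (hcG d).norm.aestronglyMeasurable
    · refine Eventually.of_forall fun d => Eventually.of_forall fun η => ?_
      rw [norm_norm]
      exact hb0 d η
    · exact j0.const_mul B
    · refine Eventually.of_forall fun η => ?_
      have : Continuous fun d => ‖G d η‖ := by simp only [hG]; fun_prop
      exact this.tendsto 0
  have hlim2 : Tendsto (fun d => ∫ η, ‖G2 d η‖) (𝓝 0) (𝓝 (∫ η, ‖G2 0 η‖)) := by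
    apply tendsto_integral_filter_of_dominated_convergence
      (fun η => 1 * (B * ‖chi η‖) + 2 * (B * ‖χ1 η‖) + B * ‖χ2 η‖)
    · exact Eventually.of_forall fun d => (hcG2 d).norm.aestronglyMeasurable
    · filter_upwards [Metric.ball_mem_nhds (0 : ℝ) one_pos] with d hd
      refine Eventually.of_forall fun η => ?_
      rw [norm_norm]
      rw [Metric.mem_ball, dist_zero_right, Real.norm_eq_abs] at hd
      have hd2 : |d| ^ 2 ≤ 1 := by nlinarith [abs_nonneg d]
      refine (hb2 d η).trans ?_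
      have k0 : 0 ≤ B * ‖chi η‖ := by positivity
      have k1 : 0 ≤ B * ‖χ1 η‖ := by positivity
      have := abs_nonneg d
      nlinarith
    · exact (((j0.const_mul B).const_mul 1).add ((j1.const_mul B).const_mul 2)).add (j2.const_mul B)
    · refine Eventually.of_forall fun η => ?_
      have : Continuous fun d => ‖G2 d η‖ := by simp only [hG2]; fun_prop
      exact this.tendsto 0
  have hval : (∫ η, ‖G 0 η‖) + ∫ η, ‖G2 0 η‖ = ‖q ζ‖ * W := by
    have e0 : ∀ η, ‖G 0 η‖ = ‖q ζ‖ * ‖chi η‖ := by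
      intro η
      simp only [hG, zero_mul, add_zero, norm_mul]
    have e2 : ∀ η, ‖G2 0 η‖ = ‖q ζ‖ * ‖χ2 η‖ := by
      intro η
      simp only [hG2, zero_mul, add_zero, Complex.ofReal_zero]
      rw [zero_pow (by norm_num), zero_mul, zero_mul, mul_zero, zero_mul, zero_mul, zero_add, zero_add, norm_mul]
    simp only [e0, e2]
    rw [integral_const_mul, integral_const_mul, ← mul_add]
    rfl
  have hlim := hlim0.add hlim2
  rw [hval] at hlim
  have hev := hlim.eventually (gt_mem_nhds (show ‖q ζ‖ * W < ‖q ζ‖ * W + ε by linarith))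
  rw [Metric.eventually_nhds_iff] at hev
  obtain ⟨d₀, hd₀, hev⟩ := hev
  refine ⟨d₀, hd₀, fun d hd hdd y => ?_⟩
  have hN := hev (y := d) (by rw [dist_zero_right, Real.norm_eq_abs, abs_of_pos hd]; exact hdd)
  have hF : F (fun ξ => q ξ * chi ((ξ - ζ) / d)) y = (d : ℂ) * (ee (-(ζ * y)) * F (G d) (d * y)) := by
    unfold F
    have h1 := Measure.integral_comp_mul_left
      (fun ξ => ee (-((ξ + ζ) * y)) * (q (ξ + ζ) * chi ((ξ + ζ - ζ) / d))) d
    rw [abs_of_pos (by positivity),
      integral_add_right_eq_self (fun ξ => ee (-(ξ * y)) * (q ξ * chi ((ξ - ζ) / d))) ζ] at h1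
    have h2 : ∫ ξ, ee (-(ξ * y)) * (q ξ * chi ((ξ - ζ) / d)) =
        (d : ℂ) * ∫ η, ee (-((d * η + ζ) * y)) * (q (d * η + ζ) * chi ((d * η + ζ - ζ) / d)) := by
      rw [h1, Complex.real_smul, ← mul_assoc]
      push_cast
      rw [mul_inv_cancel₀ (by exact_mod_cast hd.ne'), one_mul]
    rw [h2]
    congr 1
    rw [← integral_const_mul]
    congr 1
    ext η
    rw [show -((d * η + ζ) * y) = -(ζ * y) + -(η * (d * y)) by ring, ee_add,
      show (d * η + ζ - ζ) / d = η by field_simp; ring]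
    simp only [hG]
    rw [add_comm (d * η) ζ]
    ring
  rw [hF, norm_mul, norm_mul, norm_ee, one_mul, Complex.norm_real, Real.norm_of_nonneg hd.le]
  have h3 := norm_F_le_w (hd1 d) (hd2 d) (hi0 d) (hi1 d) (hi2 d) (d * y)
  have h4 : w d y = d * w 1 (d * y) := by rw [w_scale, mul_one]
  rw [h4]
  have hw : 0 ≤ w 1 (d * y) := w_nonneg zero_le_one _
  calc d * ‖F (G d) (d * y)‖ ≤ d * (((∫ t, ‖G d t‖) + ∫ t, ‖G2 d t‖) * w 1 (d * y)) :=
        mul_le_mul_of_nonneg_left h3 hd.le
    _ ≤ d * ((‖q ζ‖ * W + ε) * w 1 (d * y)) := by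
        apply mul_le_mul_of_nonneg_left _ hd.le
        exact mul_le_mul_of_nonneg_right hN.le hw
    _ = _ := by ring

end Pool.Agent.D0H98.BC
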