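import Pool.Agent.D0H98.BC.Test

/-!
# Pointwise convergence of the densities
-/

set_option autoImplicit false

open MeasureTheory Filter Topology Set
open scoped FourierTransform SchwartzMap ContDiff

namespace Pool.Agent.D0H98.BC

variable {β : ℝ}

lemma bounded_schwartz (f : 𝓢(ℝ, ℂ)) : ∃ B, ∀ t, ‖f t‖ ≤ B := by
  obtain ⟨B, hB⟩ := f.decay 0 0
  refine ⟨B, fun t => ?_⟩
  have := hB.2 t
  simpa using this

lemma D2_schwartz (f : 𝓢(ℝ, ℂ)) : D2 f (deriv f) (deriv (deriv f)) := by
  set f1 : 𝓢(ℝ, ℂ) := SchwartzMap.derivCLM ℂ ℂ f with hf1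
  set f2 : 𝓢(ℝ, ℂ) := SchwartzMap.derivCLM ℂ ℂ f1 with hf2
  have e1 : (f1 : ℝ → ℂ) = deriv f := by
    ext t
    rw [hf1, SchwartzMap.derivCLM_apply]
  have e2 : (f2 : ℝ → ℂ) = deriv (deriv f) := by
    ext t
    rw [hf2, SchwartzMap.derivCLM_apply, e1]
  rw [← e2, ← e1]
  obtain ⟨B0, hB0⟩ := bounded_schwartz f
  obtain ⟨B1, hB1⟩ := bounded_schwartz f1
  obtain ⟨B2, hB2⟩ := bounded_schwartz f2
  refine ⟨fun t => ?_, fun t => ?_, f2.continuous, f.integrable, f1.integrable, f2.integrable,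
    max B0 (max B1 B2), fun t => ⟨?_, ?_, ?_⟩⟩
  · rw [e1]
    exact f.hasDerivAt t
  · rw [e2, ← e1]
    exact f1.hasDerivAt t
  · exact (hB0 t).trans (le_max_left _ _)
  · exact (hB1 t).trans ((le_max_left _ _).trans (le_max_right _ _))
  · exact (hB2 t).trans ((le_max_right _ _).trans (le_max_right _ _))

/-- Convergence for `g = F Φ` with a function `Φ` with two integrable derivatives. -/
lemma tendsto_D2 [Fact (1 < β)] (hβ2 : β < 2) (hac : bernoulliConv β ≪ volume) {x M : ℝ}
    (hx : Good β x M) {Φ Φ1 Φ2 : ℝ → ℂ} (hD : D2 Φ Φ1 Φ2) (hΦc : ContDiff ℝ 2 Φ) :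
    Tendsto (fun n => It β (F Φ) n x) atTop (𝓝 ((hr β x : ℂ) * Φ 0)) := by
  have hβ : 1 < β := Fact.out
  have hC := CC_nonneg (β := β) hx.nonneg
  set C := CC β M
  have hχ := D2_chi
  have hx0 := hχ.c0
  have hx1 := hχ.c1
  have hx2 := hχ.c2
  have hc0 := hD.c0
  have hc1 := hD.c1
  have hc2 := hD.c2
  obtain ⟨B, hB⟩ := hχ.B
  have hB0 : 0 ≤ B := (norm_nonneg _).trans (hB 0).1
  set χ1 := deriv chi
  set χ2 := deriv (deriv chi)
  -- `r = 1 / R`
  set G : ℝ → ℝ → ℂ := fun r t => Φ t * (1 - chi (r * t)) with hG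
  set G1 : ℝ → ℝ → ℂ := fun r t => Φ1 t * (1 - chi (r * t)) + Φ t * (-(r * χ1 (r * t))) with hG1
  set G2 : ℝ → ℝ → ℂ := fun r t => Φ2 t * (1 - chi (r * t)) + 2 * (Φ1 t * (-(r * χ1 (r * t)))) +
    Φ t * (-(r ^ 2 * χ2 (r * t))) with hG2
  have haff : ∀ r t : ℝ, HasDerivAt (fun t : ℝ => r * t) r t := by
    intro r t
    simpa using (hasDerivAt_id t).const_mul r
  have hch : ∀ r t : ℝ, HasDerivAt (fun t : ℝ => 1 - chi (r * t)) (-(r * χ1 (r * t))) t := by
    intro r t
    have := (hχ.h1 (r * t)).scomp t (haff r t)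
    rw [Complex.real_smul] at this
    exact this.const_sub 1
  have hch1 : ∀ r t : ℝ, HasDerivAt (fun t : ℝ => -((r : ℂ) * χ1 (r * t))) (-(r ^ 2 * χ2 (r * t))) t := by
    intro r t
    have := (hχ.h2 (r * t)).scomp t (haff r t)
    rw [Complex.real_smul] at this
    refine ((this.const_mul (r : ℂ)).neg).congr_deriv ?_
    ring
  have hd1 : ∀ r t, HasDerivAt (G r) (G1 r t) t := fun r t => (hD.h1 t).mul (hch r t)
  have hd2 : ∀ r t, HasDerivAt (G1 r) (G2 r t) t := by
    intro r t
    refine (((hD.h2 t).mul (hch r t)).add ((hD.h1 t).mul (hch1 r t))).congr_deriv ?_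
    simp only [hG2]
    ring
  have hcG : ∀ r, Continuous (G r) := fun r => by simp only [hG]; fun_prop
  have hcG1 : ∀ r, Continuous (G1 r) := fun r => by simp only [hG1]; fun_prop
  have hcG2 : ∀ r, Continuous (G2 r) := fun r => by simp only [hG2]; fun_prop
  have hone : ∀ s : ℝ, ‖1 - chi s‖ ≤ 2 := by
    intro s
    calc ‖1 - chi s‖ ≤ ‖(1 : ℂ)‖ + ‖chi s‖ := norm_sub_le _ _
      _ ≤ 2 := by rw [norm_one]; linarith [norm_chi_le s]
  have hb0 : ∀ r t : ℝ, ‖G r t‖ ≤ ‖Φ t‖ * 2 := by
    intro r t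
    simp only [hG]
    rw [norm_mul]
    exact mul_le_mul_of_nonneg_left (hone _) (norm_nonneg _)
  have hb1 : ∀ r t : ℝ, ‖G1 r t‖ ≤ ‖Φ1 t‖ * 2 + ‖Φ t‖ * (|r| * B) := by
    intro r t
    simp only [hG1]
    refine (norm_add_le _ _).trans (add_le_add ?_ ?_)
    · rw [norm_mul]
      exact mul_le_mul_of_nonneg_left (hone _) (norm_nonneg _)
    · rw [norm_mul, norm_neg, norm_mul, Complex.norm_real, Real.norm_eq_abs]
      exact mul_le_mul_of_nonneg_left (mul_le_mul_of_nonneg_left (hB _).2.1 (abs_nonneg _)) (norm_nonneg _)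
  have hb2 : ∀ r t : ℝ, ‖G2 r t‖ ≤ ‖Φ2 t‖ * 2 + 2 * (‖Φ1 t‖ * (|r| * B)) + ‖Φ t‖ * (|r| ^ 2 * B) := by
    intro r t
    simp only [hG2]
    refine (norm_add_le _ _).trans (add_le_add ((norm_add_le _ _).trans (add_le_add ?_ ?_)) ?_)
    · rw [norm_mul]
      exact mul_le_mul_of_nonneg_left (hone _) (norm_nonneg _)
    · rw [norm_mul, norm_mul, norm_neg, norm_mul, Complex.norm_real, Real.norm_eq_abs, Complex.norm_ofNat]
      exact mul_le_mul_of_nonneg_left (mul_le_mul_of_nonneg_left (mul_le_mul_of_nonneg_left (hB _).2.1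
        (abs_nonneg _)) (norm_nonneg _)) (by norm_num)
    · rw [norm_mul, norm_neg, norm_mul, norm_pow, Complex.norm_real, Real.norm_eq_abs]
      exact mul_le_mul_of_nonneg_left (mul_le_mul_of_nonneg_left (hB _).2.2 (by positivity)) (norm_nonneg _)
  have j0 := hD.i0.norm
  have j1 := hD.i1.norm
  have j2 := hD.i2.norm
  have hi0 : ∀ r, Integrable (G r) := fun r =>
    Integrable.mono' (j0.mul_const 2) (hcG r).aestronglyMeasurable (Eventually.of_forall (hb0 r))
  have hi1 : ∀ r, Integrable (G1 r) := fun r =>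
    Integrable.mono' ((j1.mul_const 2).add (j0.mul_const (|r| * B))) (hcG1 r).aestronglyMeasurable
      (Eventually.of_forall (hb1 r))
  have hi2 : ∀ r, Integrable (G2 r) := fun r =>
    Integrable.mono' (((j2.mul_const 2).add ((j1.mul_const (|r| * B)).const_mul 2)).add
      (j0.mul_const (|r| ^ 2 * B))) (hcG2 r).aestronglyMeasurable (Eventually.of_forall (hb2 r))
  have hlim0 : Tendsto (fun r => ∫ t, ‖G r t‖) (𝓝 0) (𝓝 (∫ t, ‖G 0 t‖)) := by
    apply tendsto_integral_filter_of_dominated_convergence (fun t => ‖Φ t‖ * 2)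
    · exact Eventually.of_forall fun r => (hcG r).norm.aestronglyMeasurable
    · refine Eventually.of_forall fun r => Eventually.of_forall fun t => ?_
      rw [norm_norm]
      exact hb0 r t
    · exact j0.mul_const 2
    · refine Eventually.of_forall fun t => ?_
      have : Continuous fun r => ‖G r t‖ := by simp only [hG]; fun_prop
      exact this.tendsto 0
  have hlim2 : Tendsto (fun r => ∫ t, ‖G2 r t‖) (𝓝 0) (𝓝 (∫ t, ‖G2 0 t‖)) := by
    apply tendsto_integral_filter_of_dominated_convergence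
      (fun t => ‖Φ2 t‖ * 2 + 2 * (‖Φ1 t‖ * (1 * B)) + ‖Φ t‖ * (1 * B))
    · exact Eventually.of_forall fun r => (hcG2 r).norm.aestronglyMeasurable
    · filter_upwards [Metric.ball_mem_nhds (0 : ℝ) one_pos] with r hr
      refine Eventually.of_forall fun t => ?_
      rw [norm_norm]
      rw [Metric.mem_ball, dist_zero_right, Real.norm_eq_abs] at hr
      have hr2 : |r| ^ 2 ≤ 1 := by nlinarith [abs_nonneg r]
      refine (hb2 r t).trans ?_
      gcongr
    · exact ((j2.mul_const 2).add ((j1.mul_const (1 * B)).const_mul 2)).add (j0.mul_const (1 * B))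
    · refine Eventually.of_forall fun t => ?_
      have : Continuous fun r => ‖G2 r t‖ := by simp only [hG2]; fun_prop
      exact this.tendsto 0
  have hval : (∫ t, ‖G 0 t‖) + ∫ t, ‖G2 0 t‖ = 0 := by
    have hchi0 : chi 0 = 1 := chi_one (by simp)
    have e0 : ∀ t, ‖G 0 t‖ = 0 := by
      intro t
      simp only [hG, zero_mul, hchi0, sub_self, mul_zero, norm_zero]
    have e2 : ∀ t, ‖G2 0 t‖ = 0 := by
      intro t
      simp [hG2, hchi0]
    simp only [e0, e2, integral_zero, add_zero]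
  have hlim := hlim0.add hlim2
  rw [hval] at hlim
  rw [Metric.tendsto_atTop]
  intro ε hε
  have hev := hlim.eventually (gt_mem_nhds (show 0 < ε / (2 * (C + 1)) by positivity))
  rw [Metric.eventually_nhds_iff] at hev
  obtain ⟨r₀, hr₀, hev⟩ := hev
  set r : ℝ := r₀ / 2 with hr
  have hr0 : 0 < r := by positivity
  have hN := hev (y := r) (by rw [dist_zero_right, Real.norm_eq_abs, abs_of_pos hr0]; linarith)
  -- the function with compact support
  have hχr : ContDiff ℝ 2 fun t : ℝ => chi (r * t) := by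
    have := contDiff_chi (n := 2)
    exact this.comp (by fun_prop)
  have hcχr : HasCompactSupport fun t : ℝ => chi (r * t) := by
    apply HasCompactSupport.intro (K := Metric.closedBall 0 r⁻¹) (isCompact_closedBall 0 _)
    intro t ht
    apply chi_zero
    rw [Metric.mem_closedBall, dist_zero_right, Real.norm_eq_abs, not_le, inv_lt_iff_one_lt_mul₀ hr0] at ht
    rw [abs_mul, abs_of_pos hr0, mul_comm]
    exact ht.le
  have hK1 : ContDiff ℝ 2 fun t => Φ t * chi (r * t) := hΦc.mul hχr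
  have hK2 : HasCompactSupport fun t => Φ t * chi (r * t) := hcχr.mul_left
  have h1 := tendsto_test hβ2 hac hx hK1 hK2
  have h2 : Φ 0 * chi (r * 0) = Φ 0 := by
    rw [mul_zero, chi_one (by simp), mul_one]
  rw [h2, Metric.tendsto_atTop] at h1
  obtain ⟨N, hN'⟩ := h1 (ε / 2) (by positivity)
  refine ⟨N, fun n hn => ?_⟩
  have h3 : F Φ = fun y => F (fun t => Φ t * chi (r * t)) y + F (G r) y := by
    rw [← F_add (hK1.continuous.integrable_of_hasCompactSupport hK2) (hi0 r)]
    congr 1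
    ext t
    simp only [hG]
    ring
  have h4 : ‖It β (F (G r)) n x‖ ≤ ε / 2 := by
    have h5 := norm_It_le_of_w hx one_pos le_rfl (K := (∫ t, ‖G r t‖) + ∫ t, ‖G2 r t‖) (by positivity)
      (g := F (G r)) (fun y => norm_F_le_w (hd1 r) (hd2 r) (hi0 r) (hi1 r) (hi2 r) y) n
    refine h5.trans ?_
    calc ((∫ t, ‖G r t‖) + ∫ t, ‖G2 r t‖) * C ≤ ε / (2 * (C + 1)) * C :=
          mul_le_mul_of_nonneg_right hN.le hC
      _ ≤ ε / 2 := by
          rw [div_mul_eq_mul_div, div_le_div_iff₀ (by positivity) (by norm_num)]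
          nlinarith
  have h6 := hN' n hn
  rw [h3, It_add_fun]
  rw [dist_eq_norm] at h6 ⊢
  calc ‖It β (F fun t => Φ t * chi (r * t)) n x + It β (F (G r)) n x - (Pool.Agent.D0H98.BC.hr β x : ℂ) * Φ 0‖
      = ‖(It β (F fun t => Φ t * chi (r * t)) n x - (Pool.Agent.D0H98.BC.hr β x : ℂ) * Φ 0) +
          It β (F (G r)) n x‖ := by
        congr 1
        ring
    _ ≤ _ := norm_add_le _ _
    _ < ε := by linarith

/-- Convergence for smooth functions with compact support. -/
lemma tendsto_smooth [Fact (1 < β)] (hβ2 : β < 2) (hac : bernoulliConv β ≪ volume) {x M : ℝ}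
    (hx : Good β x M) {g : ℝ → ℝ} (hg : ContDiff ℝ ∞ g) (hc : HasCompactSupport g) :
    Tendsto (fun n => It β g n x) atTop (𝓝 (hr β x * ∫ y, g y)) := by
  set gc : ℝ → ℂ := fun y => ((g y : ℝ) : ℂ) with hgc
  have hgc1 : ContDiff ℝ ∞ gc := Complex.ofRealCLM.contDiff.comp hg
  have hgc2 : HasCompactSupport gc := hc.comp_left (g := fun y : ℝ => (y : ℂ)) (by simp)
  set gS : 𝓢(ℝ, ℂ) := hgc2.toSchwartzMap hgc1 with hgS
  have hgS' : (gS : ℝ → ℂ) = gc := rfl
  set ΦS : 𝓢(ℝ, ℂ) := 𝓕⁻ gS with hΦS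
  have h1 : F ΦS = gc := by
    rw [F_eq, ← SchwartzMap.fourier_coe, hΦS, FourierTransform.fourier_fourierInv_eq, hgS']
  have h2 : ΦS 0 = ((∫ y, g y : ℝ) : ℂ) := by
    rw [← integral_F (D2_schwartz ΦS), h1]
    simp only [hgc]
    rw [integral_complex_ofReal]
  have h3 := tendsto_D2 hβ2 hac hx (D2_schwartz ΦS) (ΦS.smooth 2)
  rw [h1, h2] at h3
  have h4 : ∀ n, It β gc n x = ((It β g n x : ℝ) : ℂ) := fun n => It_ofReal g n x
  simp only [h4] at h3
  have h5 := (Complex.continuous_re.tendsto _).comp h3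
  simp only [Function.comp_def, Complex.ofReal_re] at h5
  rw [← Complex.ofReal_mul, Complex.ofReal_re] at h5
  exact h5

/-- Convergence for the indicator function of the interval `[0, c]`. -/
lemma tendsto_indicator [Fact (1 < β)] (hβ2 : β < 2) (hac : bernoulliConv β ≪ volume) {x M : ℝ}
    (hx : Good β x M) {c : ℝ} (hc : 0 < c) :
    Tendsto (fun n => It β ((Icc 0 c).indicator fun _ => (1 : ℝ)) n x) atTop (𝓝 (hr β x * c)) := by
  have hβ : 1 < β := Fact.out
  have hh := hr_nonneg (β := β) x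
  rw [Metric.tendsto_atTop]
  intro ε hε
  set δ : ℝ := min (c / 4) (ε / (4 * (hr β x + 1))) with hδ
  have hδ0 : 0 < δ := lt_min (by positivity) (by positivity)
  have hδc : δ ≤ c / 4 := min_le_left _ _
  have hδε : hr β x * (2 * δ) < ε / 2 + ε / 4 := by
    have h1 : δ ≤ ε / (4 * (hr β x + 1)) := min_le_right _ _
    rw [le_div_iff₀ (by positivity)] at h1
    nlinarith
  -- the two bumps
  set bu : ContDiffBump (c / 2 : ℝ) := ⟨c / 2, c / 2 + δ, by positivity, by linarith⟩ with hbu
  set bl : ContDiffBump (c / 2 : ℝ) := ⟨c / 2 - δ, c / 2, by linarith, by linarith⟩ with hbl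
  have hu1 : ∀ y, (Icc 0 c).indicator (fun _ => (1 : ℝ)) y ≤ bu y := by
    intro y
    by_cases hy : y ∈ Icc 0 c
    · rw [indicator_of_mem hy, bu.one_of_mem_closedBall]
      rw [Metric.mem_closedBall, Real.dist_eq, abs_le]
      obtain ⟨hy0, hy1⟩ := hy
      show -(c / 2) ≤ y - c / 2 ∧ y - c / 2 ≤ c / 2
      constructor <;> linarith
    · rw [indicator_of_notMem hy]
      exact bu.nonneg
  have hl1 : ∀ y, bl y ≤ (Icc 0 c).indicator (fun _ => (1 : ℝ)) y := by
    intro y
    by_cases hy : y ∈ Icc 0 c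
    · rw [indicator_of_mem hy]
      exact bl.le_one
    · rw [indicator_of_notMem hy, bl.zero_of_le_dist]
      rw [Real.dist_eq]
      show c / 2 ≤ |y - c / 2|
      by_contra hcon
      push Not at hcon
      rw [abs_lt] at hcon
      exact hy ⟨by linarith [hcon.1], by linarith [hcon.2]⟩
  have hu2 : ∫ y, bu y ≤ c + 2 * δ := by
    have h1 : ∫ y, bu y ≤ ∫ y, (Metric.closedBall (c / 2) (c / 2 + δ)).indicator (fun _ => (1 : ℝ)) y := by
      apply integral_mono bu.integrable
      · rw [integrable_indicator_iff Metric.isClosed_closedBall.measurableSet]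
        exact integrableOn_const (by rw [Real.volume_closedBall]; exact ENNReal.ofReal_ne_top) (by simp)
      · intro y
        by_cases hy : y ∈ Metric.closedBall (c / 2) (c / 2 + δ)
        · rw [indicator_of_mem hy]
          exact bu.le_one
        · rw [indicator_of_notMem hy, bu.zero_of_le_dist]
          rw [Metric.mem_closedBall, not_le] at hy
          exact hy.le
    rw [integral_indicator Metric.isClosed_closedBall.measurableSet, setIntegral_const, smul_eq_mul, mul_one,
      Measure.real, Real.volume_closedBall, ENNReal.toReal_ofReal (by positivity)] at h1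
    linarith
  have hl2 : c - 2 * δ ≤ ∫ y, bl y := by
    have h1 : ∫ y, (Metric.closedBall (c / 2) (c / 2 - δ)).indicator (fun _ => (1 : ℝ)) y ≤ ∫ y, bl y := by
      apply integral_mono _ bl.integrable
      · intro y
        by_cases hy : y ∈ Metric.closedBall (c / 2) (c / 2 - δ)
        · rw [indicator_of_mem hy, bl.one_of_mem_closedBall]
          exact hy
        · rw [indicator_of_notMem hy]
          exact bl.nonneg
      · rw [integrable_indicator_iff Metric.isClosed_closedBall.measurableSet]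
        exact integrableOn_const (by rw [Real.volume_closedBall]; exact ENNReal.ofReal_ne_top) (by simp)
    rw [integral_indicator Metric.isClosed_closedBall.measurableSet, setIntegral_const, smul_eq_mul, mul_one,
      Measure.real, Real.volume_closedBall, ENNReal.toReal_ofReal (by linarith)] at h1
    linarith
  have tu := tendsto_smooth hβ2 hac hx bu.contDiff bu.hasCompactSupport
  have tl := tendsto_smooth hβ2 hac hx bl.contDiff bl.hasCompactSupport
  rw [Metric.tendsto_atTop] at tu tl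
  obtain ⟨N1, hN1⟩ := tu (ε / 4) (by positivity)
  obtain ⟨N2, hN2⟩ := tl (ε / 4) (by positivity)
  refine ⟨max N1 N2, fun n hn => ?_⟩
  have k1 := hN1 n ((le_max_left _ _).trans hn)
  have k2 := hN2 n ((le_max_right _ _).trans hn)
  have k3 := It_mono (by linarith : 0 ≤ β) hu1 n x
  have k4 := It_mono (by linarith : 0 ≤ β) hl1 n x
  have k5 : hr β x * ∫ y, bu y ≤ hr β x * (c + 2 * δ) := mul_le_mul_of_nonneg_left hu2 hh
  have k6 : hr β x * (c - 2 * δ) ≤ hr β x * ∫ y, bl y := mul_le_mul_of_nonneg_left hl2 hh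
  rw [Real.dist_eq, abs_lt] at k1 k2 ⊢
  constructor
  · nlinarith [k2.1]
  · nlinarith [k1.2]

/-- **Almost everywhere convergence.** -/
theorem main {β : ℝ} (hβ : 1 < β) (hβ2 : β < 2) (hac : bernoulliConv β ≪ volume) :
    ∀ᵐ x ∂(volume : Measure ℝ), Tendsto (fun n => It β ((Icc 0 (1 / (β - 1))).indicator
      fun _ => β - 1) n x) atTop (𝓝 ((bernoulliConv β).rnDeriv volume x).toReal) := by
  have : Fact (1 < β) := ⟨hβ⟩
  filter_upwards [ae_good hac] with x hx
  obtain ⟨M, hM⟩ := hx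
  have hβ1 : 0 < β - 1 := by linarith
  have h1 := (tendsto_indicator hβ2 hac hM (c := 1 / (β - 1)) (by positivity)).const_mul (β - 1)
  have h2 : (β - 1) * (hr β x * (1 / (β - 1))) = ((bernoulliConv β).rnDeriv volume x).toReal := by
    unfold hr
    field_simp
  rw [h2] at h1
  refine h1.congr fun n => ?_
  rw [← It_const_mul]
  congr 1
  ext y
  by_cases hy : y ∈ Icc 0 (1 / (β - 1))
  · rw [indicator_of_mem hy, indicator_of_mem hy, mul_one]
  · rw [indicator_of_notMem hy, indicator_of_notMem hy, mul_zero]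

end Pool.Agent.D0H98.BC
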