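import Pool.Agent.D0H98.BC.Leb

/-!
# Fourier transforms
-/

set_option autoImplicit false

open MeasureTheory Filter Topology Set
open scoped ENNReal FourierTransform

namespace Pool.Agent.D0H98.BC

variable {β : ℝ}

/-- `exp (2 π i t)`. -/
noncomputable def ee (t : ℝ) : ℂ := Complex.exp ((2 * Real.pi * t : ℝ) * Complex.I)

lemma ee_add (s t : ℝ) : ee (s + t) = ee s * ee t := by
  unfold ee
  rw [← Complex.exp_add]
  congr 1
  push_cast
  ring

lemma norm_ee (t : ℝ) : ‖ee t‖ = 1 := by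
  unfold ee
  exact Complex.norm_exp_ofReal_mul_I _

lemma ee_zero : ee 0 = 1 := by simp [ee]

lemma contDiff_ee {n : ℕ∞} : ContDiff ℝ n ee := by
  unfold ee
  apply ContDiff.cexp
  apply ContDiff.mul _ contDiff_const
  exact Complex.ofRealCLM.contDiff.comp (contDiff_const.mul contDiff_id)

lemma continuous_ee : Continuous ee := (contDiff_ee (n := 0)).continuous

/-- The Fourier transform of a function. -/
noncomputable def F (Φ : ℝ → ℂ) (y : ℝ) : ℂ := ∫ ξ, ee (-(ξ * y)) * Φ ξ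

lemma F_eq (Φ : ℝ → ℂ) : F Φ = 𝓕 Φ := by
  ext y
  rw [Real.fourier_real_eq_integral_exp_smul]
  unfold F ee
  congr 1
  ext ξ
  rw [smul_eq_mul]
  congr 3
  push_cast
  ring

lemma norm_F_le (Φ : ℝ → ℂ) (y : ℝ) : ‖F Φ y‖ ≤ ∫ ξ, ‖Φ ξ‖ := by
  unfold F
  refine (norm_integral_le_integral_norm _).trans (le_of_eq ?_)
  congr 1
  ext ξ
  rw [norm_mul, norm_ee, one_mul]

/-- The trigonometric products `∏_{i < n} (1 + e(β^i ξ)) / 2`. -/
noncomputable def kk (β : ℝ) (n : ℕ) (ξ : ℝ) : ℂ := ∏ i ∈ Finset.range n, (1 + ee (β ^ i * ξ)) / 2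

lemma contDiff_kk {n : ℕ∞} (k : ℕ) : ContDiff ℝ n (kk β k) := by
  unfold kk
  apply contDiff_prod
  intro i _
  apply ContDiff.div_const
  apply contDiff_const.add
  exact contDiff_ee.comp (by fun_prop)

lemma norm_half (t : ℝ) : ‖(1 + ee t) / 2‖ = |Real.cos (Real.pi * t)| := by
  have h : (1 + ee t) / 2 = Complex.exp ((Real.pi * t : ℝ) * Complex.I) * (Real.cos (Real.pi * t) : ℂ) := by
    rw [Complex.ofReal_cos, Complex.cos, ← mul_div_assoc, mul_add, ← Complex.exp_add, ← Complex.exp_add]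
    unfold ee
    congr 1
    rw [add_comm]
    congr 1
    · congr 1
      push_cast
      ring
    · rw [neg_mul, add_neg_cancel, Complex.exp_zero]
  rw [h, norm_mul, Complex.norm_exp_ofReal_mul_I, one_mul, Complex.norm_real, Real.norm_eq_abs]

lemma norm_half_le (t : ℝ) : ‖(1 + ee t) / 2‖ ≤ 1 := by
  rw [norm_half]
  exact Real.abs_cos_le_one _

lemma norm_kk_le (n : ℕ) (ξ : ℝ) : ‖kk β n ξ‖ ≤ 1 := by
  unfold kk
  rw [norm_prod]
  exact Finset.prod_le_one (fun _ _ => norm_nonneg _) fun _ _ => norm_half_le _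

lemma kk_succ (n : ℕ) (ξ : ℝ) : kk β (n + 1) ξ = kk β n ξ * ((1 + ee (β ^ n * ξ)) / 2) := by
  unfold kk
  rw [Finset.prod_range_succ]

lemma integrable_ee_mul {Φ : ℝ → ℂ} (h : Integrable Φ) {f : ℝ → ℝ} (hf : Continuous f) :
    Integrable (fun ξ => ee (f ξ) * Φ ξ) := by
  refine h.bdd_mul (c := 1) (continuous_ee.comp hf).aestronglyMeasurable ?_
  exact Eventually.of_forall fun ξ => (norm_ee _).le

lemma integrable_kk_mul {Φ : ℝ → ℂ} (h : Integrable Φ) (n : ℕ) :
    Integrable (fun ξ => kk β n ξ * Φ ξ) := by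
  refine h.bdd_mul (c := 1) (contDiff_kk (n := 0) n).continuous.aestronglyMeasurable ?_
  exact Eventually.of_forall fun ξ => norm_kk_le _ _

/-- The iterates of a Fourier transform. -/
lemma It_F {Φ : ℝ → ℂ} (h : Integrable Φ) (n : ℕ) (y : ℝ) :
    It β (F Φ) n y = (β ^ n : ℂ) * F (fun ξ => kk β n ξ * Φ ξ) (β ^ n * y) := by
  induction n generalizing y with
  | zero => simp [It, kk]
  | succ n ih =>
    simp only [It, T]
    rw [ih, ih]
    have hG := integrable_kk_mul (β := β) h n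
    have e1 : F (fun ξ => kk β n ξ * Φ ξ) (β ^ n * (β * y)) +
        F (fun ξ => kk β n ξ * Φ ξ) (β ^ n * (β * y - 1)) =
        2 * F (fun ξ => kk β (n + 1) ξ * Φ ξ) (β ^ (n + 1) * y) := by
      unfold F
      rw [← integral_add, ← integral_const_mul]
      · congr 1
        ext ξ
        beta_reduce
        rw [show -(ξ * (β ^ n * (β * y - 1))) = -(ξ * (β ^ n * (β * y))) + β ^ n * ξ by ring, ee_add,
          kk_succ, show β ^ (n + 1) * y = β ^ n * (β * y) by ring]
        ring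
      · exact integrable_ee_mul hG (by fun_prop)
      · exact integrable_ee_mul hG (by fun_prop)
    rw [← mul_add, e1, Complex.real_smul]
    push_cast
    ring

/-- Quadratic decay of the Fourier transform of a twice differentiable function. -/
lemma norm_F_le_w {G G1 G2 : ℝ → ℂ} (h1 : ∀ t, HasDerivAt G (G1 t) t)
    (h2 : ∀ t, HasDerivAt G1 (G2 t) t) (i0 : Integrable G) (i1 : Integrable G1) (i2 : Integrable G2)
    (y : ℝ) : ‖F G y‖ ≤ ((∫ t, ‖G t‖) + ∫ t, ‖G2 t‖) * w 1 y := by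
  have e1 : deriv G = G1 := funext fun t => (h1 t).deriv
  have e2 : deriv G1 = G2 := funext fun t => (h2 t).deriv
  have d1 := Real.fourier_deriv i0 (fun t => (h1 t).differentiableAt) (by rw [e1]; exact i1)
  have d2 := Real.fourier_deriv i1 (fun t => (h2 t).differentiableAt) (by rw [e2]; exact i2)
  rw [e1] at d1
  rw [e2] at d2
  have h3 : ‖F G2 y‖ = (2 * Real.pi) ^ 2 * y ^ 2 * ‖F G y‖ := by
    rw [F_eq, F_eq, d2]
    simp only [d1]
    rw [norm_smul, norm_smul]
    have : ‖(2 * Real.pi * Complex.I * y : ℂ)‖ = 2 * Real.pi * |y| := by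
      simp [abs_of_pos Real.pi_pos]
    rw [this, ← sq_abs y]
    ring
  have h4 := norm_F_le G2 y
  have h5 := norm_F_le G y
  have h6 : y ^ 2 * ‖F G y‖ ≤ (2 * Real.pi) ^ 2 * y ^ 2 * ‖F G y‖ := by
    have : (1 : ℝ) ≤ (2 * Real.pi) ^ 2 := by nlinarith [Real.pi_gt_three]
    have h7 : 0 ≤ y ^ 2 * ‖F G y‖ := by positivity
    nlinarith
  unfold w
  rw [one_mul, mul_one_div, le_div_iff₀ (by positivity)]
  nlinarith

/-- The Fourier transform of the Bernoulli convolution. -/
noncomputable def nuhat (β : ℝ) (ξ : ℝ) : ℂ := ∫ z, ee (ξ * z) ∂(bernoulliConv β)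

lemma nuhat_zero [Fact (1 < β)] : nuhat β 0 = 1 := by
  unfold nuhat
  simp [ee_zero]

lemma nuhat_eq_charFun (ξ : ℝ) : nuhat β ξ = charFun (bernoulliConv β) (2 * Real.pi * ξ) := by
  rw [charFun_apply_real]
  unfold nuhat ee
  congr 1
  ext z
  congr 1
  push_cast
  ring

lemma contDiff_nuhat [Fact (1 < β)] {n : ℕ∞} : ContDiff ℝ n (nuhat β) := by
  have h : nuhat β = fun ξ => charFun (bernoulliConv β) (2 * Real.pi * ξ) :=
    funext nuhat_eq_charFun
  rw [h]
  apply (contDiff_charFun' _).comp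
  · fun_prop
  · intro k
    apply MemLp.of_bound (by fun_prop) (1 / (β - 1))
    filter_upwards [ae_mem (β := β)] with z hz
    rw [id, Real.norm_eq_abs, abs_of_nonneg hz.1]
    exact hz.2

lemma nuhat_mul [Fact (1 < β)] (ξ : ℝ) : nuhat β (β * ξ) = (1 + ee ξ) / 2 * nuhat β ξ := by
  have hβ : 1 < β := Fact.out
  have hβ0 : β ≠ 0 := by positivity
  unfold nuhat
  rw [integral_self_similar (β := β) (u := fun z => ee (β * ξ * z)) (continuous_ee.comp (by fun_prop)) (C := 1)
    (fun z => (norm_ee _).le)]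
  have e1 : ∀ z, ee (β * ξ * (z / β)) = ee (ξ * z) := by
    intro z
    congr 1
    field_simp
  have e2 : ∀ z, ee (ξ * (1 + z)) = ee ξ * ee (ξ * z) := by
    intro z
    rw [← ee_add]
    congr 1
    ring
  simp only [e1, e2]
  rw [integral_const_mul, Complex.real_smul]
  push_cast
  ring

lemma nuhat_pow [Fact (1 < β)] (n : ℕ) (ξ : ℝ) : nuhat β (β ^ n * ξ) = kk β n ξ * nuhat β ξ := by
  induction n with
  | zero => simp [kk]
  | succ n ih =>
    rw [show β ^ (n + 1) * ξ = β * (β ^ n * ξ) by ring, nuhat_mul, ih, kk_succ]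
    ring

lemma tendsto_nuhat [Fact (1 < β)] (hac : bernoulliConv β ≪ volume) :
    Tendsto (nuhat β) (cocompact ℝ) (𝓝 0) := by
  have h := Real.zero_at_infty_fourier (fun z => ((hr β z : ℝ) : ℂ))
  have h2 := h.comp (Homeomorph.neg ℝ).isClosedEmbedding.tendsto_cocompact
  refine h2.congr fun ξ => ?_
  simp only [Function.comp_apply, Homeomorph.coe_neg]
  rw [← F_eq]
  unfold F nuhat
  rw [← integral_rnDeriv_smul hac]
  congr 1
  ext z
  rw [Complex.real_smul, mul_comm]
  unfold hr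
  congr 2
  ring

/-- Fourier transforms of products with `nuhat` are convolutions. -/
lemma F_mul_nuhat [Fact (1 < β)] {Ψ : ℝ → ℂ} (hΨ : Integrable Ψ) :
    F (fun ξ => Ψ ξ * nuhat β ξ) = conv β (F Ψ) := by
  ext y
  unfold F conv nuhat
  rw [integral_integral_swap]
  · congr 1
    ext ξ
    beta_reduce
    rw [← integral_const_mul, ← integral_const_mul]
    congr 1
    ext z
    rw [show -(ξ * (y - z)) = -(ξ * y) + ξ * z by ring, ee_add]
    ring
  · have h1 : Integrable (fun p : ℝ × ℝ => Ψ p.2) ((bernoulliConv β).prod volume) :=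
      hΨ.comp_snd (bernoulliConv β)
    have h2 : Continuous (fun p : ℝ × ℝ => ee (-(p.2 * (y - p.1)))) := continuous_ee.comp (by fun_prop)
    exact h1.bdd_mul (c := 1) h2.aestronglyMeasurable (Eventually.of_forall fun p => (norm_ee _).le)

end Pool.Agent.D0H98.BC
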