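import Pool.Agent.D0H98.BC.Op

/-!
# Good points: finite maximal function and Lebesgue point of the density
-/

set_option autoImplicit false

open MeasureTheory Filter Topology Set
open scoped ENNReal

namespace Pool.Agent.D0H98.BC

variable {β : ℝ}

/-- The density of the (absolutely continuous part of the) Bernoulli convolution. -/
noncomputable def hr (β : ℝ) (x : ℝ) : ℝ := ((bernoulliConv β).rnDeriv volume x).toReal

lemma hr_nonneg (x : ℝ) : 0 ≤ hr β x := ENNReal.toReal_nonneg

lemma integrable_hr [Fact (1 < β)] : Integrable (hr β) := Measure.integrable_toReal_rnDeriv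

/-- The point `x` is good with constant `M`. -/
structure Good (β x M : ℝ) : Prop where
  nonneg : 0 ≤ M
  bound : ∀ ρ, 0 < ρ → (bernoulliConv β).real (Metric.closedBall x ρ) ≤ 2 * M * ρ
  leb : Tendsto (fun ρ => ⨍ y in Metric.closedBall x ρ, ‖hr β y - hr β x‖) (𝓝[>] 0) (𝓝 0)

lemma ae_good [Fact (1 < β)] (hac : bernoulliConv β ≪ volume) :
    ∀ᵐ x ∂(volume : Measure ℝ), ∃ M, Good β x M := by
  have h := (Besicovitch.vitaliFamily (volume : Measure ℝ)).ae_tendsto_average_norm_sub
    (f := hr β) integrable_hr.locallyIntegrable
  filter_upwards [h] with x hx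
  have hl : Tendsto (fun ρ => ⨍ y in Metric.closedBall x ρ, ‖hr β y - hr β x‖) (𝓝[>] 0) (𝓝 0) :=
    hx.comp (Besicovitch.tendsto_filterAt volume x)
  have he : ∀ᶠ ρ in 𝓝[>] (0 : ℝ), ⨍ y in Metric.closedBall x ρ, ‖hr β y - hr β x‖ ≤ 1 :=
    (hl.eventually (gt_mem_nhds zero_lt_one)).mono fun _ h => h.le
  rw [eventually_nhdsWithin_iff, Metric.eventually_nhds_iff] at he
  obtain ⟨ρ₀, hρ₀, he⟩ := he
  refine ⟨1 + hr β x + 1 / ρ₀, ?_, ?_, hl⟩
  · have := hr_nonneg (β := β) x
    positivity
  · intro ρ hρ
    by_cases hc : ρ < ρ₀
    · have h1 := he (y := ρ) (by rw [Real.dist_eq, sub_zero, abs_of_pos hρ]; exact hc) hρ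
      have h2 : (bernoulliConv β).real (Metric.closedBall x ρ) = ∫ y in Metric.closedBall x ρ, hr β y := by
        unfold hr
        rw [Measure.setIntegral_toReal_rnDeriv hac]
      have hvol : volume.real (Metric.closedBall x ρ) = 2 * ρ := by
        rw [Measure.real, Real.volume_closedBall, ENNReal.toReal_ofReal (by positivity)]
      have hint : IntegrableOn (fun y => ‖hr β y - hr β x‖) (Metric.closedBall x ρ) := by
        apply Integrable.norm
        exact (integrable_hr.integrableOn).sub (integrableOn_const (by
          rw [Real.volume_closedBall]; exact ENNReal.ofReal_ne_top) (by simp))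
      have h3 : ∫ y in Metric.closedBall x ρ, hr β y ≤
          ∫ y in Metric.closedBall x ρ, (‖hr β y - hr β x‖ + hr β x) := by
        apply integral_mono integrable_hr.integrableOn
        · exact hint.add (integrableOn_const (by
            rw [Real.volume_closedBall]; exact ENNReal.ofReal_ne_top) (by simp))
        · intro y
          have := Real.le_norm_self (hr β y - hr β x)
          show hr β y ≤ ‖hr β y - hr β x‖ + hr β x
          linarith
      have h4 : ∫ y in Metric.closedBall x ρ, (‖hr β y - hr β x‖ + hr β x) =
          (∫ y in Metric.closedBall x ρ, ‖hr β y - hr β x‖) + 2 * ρ * hr β x := by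
        rw [integral_add hint (integrableOn_const (by
            rw [Real.volume_closedBall]; exact ENNReal.ofReal_ne_top) (by simp))]
        rw [setIntegral_const, hvol, smul_eq_mul]
      rw [setAverage_eq, hvol, smul_eq_mul] at h1
      have h5 : (∫ y in Metric.closedBall x ρ, ‖hr β y - hr β x‖) ≤ 2 * ρ := by
        rw [inv_mul_le_iff₀ (by positivity)] at h1
        linarith
      rw [h2]
      have h6 : 0 ≤ 1 / ρ₀ * ρ := by positivity
      nlinarith
    · push Not at hc
      have h1 : (bernoulliConv β).real (Metric.closedBall x ρ) ≤ 1 := measureReal_le_one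
      have h2 : 1 ≤ 1 / ρ₀ * ρ := by
        rw [one_div, inv_mul_eq_div, le_div_iff₀ hρ₀]
        linarith
      have h3 : 0 ≤ hr β x * ρ := mul_nonneg (hr_nonneg x) hρ.le
      nlinarith

lemma w_eq (d y : ℝ) : w d y = d * (1 + (d * y) ^ 2)⁻¹ := by
  unfold w
  rw [div_eq_mul_inv]

lemma integrable_w {d : ℝ} (hd : 0 < d) : Integrable (w d) := by
  have h := (integrable_inv_one_add_sq.comp_mul_left' hd.ne').const_mul d
  refine h.congr (Eventually.of_forall fun y => ?_)
  simp only [w_eq]

lemma integrable_w_sub {d : ℝ} (hd : 0 < d) (x : ℝ) : Integrable (fun z => w d (x - z)) :=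
  (integrable_w hd).comp_sub_left x

lemma integral_w {d : ℝ} (hd : 0 < d) : ∫ z, w d z = Real.pi := by
  simp only [w_eq]
  rw [integral_const_mul, Measure.integral_comp_mul_left (fun y => (1 + y ^ 2)⁻¹) d,
    integral_univ_inv_one_add_sq, smul_eq_mul, abs_of_pos (by positivity)]
  field_simp

lemma integral_w_sub {d : ℝ} (hd : 0 < d) (x : ℝ) : ∫ z, w d (x - z) = Real.pi := by
  rw [integral_sub_left_eq_self (w d) volume x, integral_w hd]

/-- Convergence at good points for convolutions with the Bernoulli convolution. -/
lemma tendsto_conv [Fact (1 < β)] (hac : bernoulliConv β ≪ volume) {x M : ℝ} (hx : Good β x M)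
    {u : ℝ → ℂ} (hu : Continuous u) {K : ℝ} (hK : ∀ y, ‖u y‖ ≤ K * w 1 y) :
    Tendsto (fun n => It β (conv β u) n x) atTop (𝓝 ((hr β x : ℂ) * ∫ y, u y)) := by
  have hβ : 1 < β := Fact.out
  have hK0 : 0 ≤ K := by
    have h := (norm_nonneg _).trans (hK 0)
    unfold w at h
    simpa using h
  have hw1 : ∀ y, w 1 y ≤ 1 := w_le zero_le_one
  have hub : ∀ y, ‖u y‖ ≤ K := fun y => (hK y).trans (by nlinarith [hw1 y])
  have hui : Integrable u := by
    refine Integrable.mono' ((integrable_w zero_lt_one).const_mul K) hu.aestronglyMeasurable
      (Eventually.of_forall hK)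
  -- the difference
  have key : ∀ r : ℝ, 0 < r → ∀ n : ℕ, ‖It β (conv β u) n x - (hr β x : ℂ) * ∫ y, u y‖ ≤
      2 * K * r * (⨍ y in Metric.closedBall x (r / β ^ n), ‖hr β y - hr β x‖) +
        2 * K / r * (16 * M + hr β x * Real.pi) := by
    intro r hr0 n
    set s : ℝ := β ^ n with hs
    have hs0 : 0 < s := by positivity
    have e1 : It β (conv β u) n x = ∫ z, hr β z • (s • u (s * (x - z))) := by
      rw [It_conv hu hub]
      unfold conv hr
      rw [integral_rnDeriv_smul hac]
    have hsui : Integrable (fun z => s • u (s * (x - z))) :=
      ((hui.comp_mul_left' hs0.ne').comp_sub_left x).smul s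
    have hsui2 : Integrable (fun z => hr β x • (s • u (s * (x - z)))) := hsui.smul (hr β x)
    have e2 : (hr β x : ℂ) * ∫ y, u y = ∫ z, hr β x • (s • u (s * (x - z))) := by
      rw [integral_smul, integral_smul, integral_sub_left_eq_self (fun z => u (s * z)) volume x,
        Measure.integral_comp_mul_left u s, abs_of_pos (by positivity), smul_smul s, mul_inv_cancel₀ hs0.ne',
        one_smul, Complex.real_smul]
    have hi1 : Integrable (fun z => hr β z • (s • u (s * (x - z)))) := by
      refine Integrable.mono' ((integrable_hr (β := β)).mul_const (s * K)) ?_ ?_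
      · exact integrable_hr.aestronglyMeasurable.smul (Continuous.aestronglyMeasurable (by fun_prop))
      · refine Eventually.of_forall fun z => ?_
        rw [norm_smul, norm_smul, Real.norm_of_nonneg (hr_nonneg z), Real.norm_of_nonneg hs0.le]
        exact mul_le_mul_of_nonneg_left (mul_le_mul_of_nonneg_left (hub _) hs0.le) (hr_nonneg z)
    rw [e1, e2, ← integral_sub hi1 hsui2]
    have hvol : volume.real (Metric.closedBall x (r / s)) = 2 * (r / s) := by
      rw [Measure.real, Real.volume_closedBall, ENNReal.toReal_ofReal (by positivity)]
    have hiB : IntegrableOn (fun z => ‖hr β z - hr β x‖) (Metric.closedBall x (r / s)) := by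
      apply Integrable.norm
      exact (integrable_hr.integrableOn).sub (integrableOn_const (by
          rw [Real.volume_closedBall]; exact ENNReal.ofReal_ne_top) (by simp))
    have hiB2 : Integrable (fun z => (Metric.closedBall x (r / s)).indicator
        (fun z => K * s * ‖hr β z - hr β x‖) z) :=
      (integrable_indicator_iff Metric.isClosed_closedBall.measurableSet).2 (hiB.const_mul _)
    have hiw : Integrable (fun z => w (s / r) (x - z)) := integrable_w_sub (by positivity) x
    have hihw : Integrable (fun z => hr β z * w (s / r) (x - z)) := by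
      refine Integrable.mono' ((integrable_hr (β := β)).mul_const (s / r)) ?_ ?_
      · exact integrable_hr.aestronglyMeasurable.mul
          ((continuous_w _).comp (by fun_prop)).aestronglyMeasurable
      · refine Eventually.of_forall fun z => ?_
        rw [norm_mul, Real.norm_of_nonneg (hr_nonneg z), Real.norm_of_nonneg (w_nonneg (by positivity) _)]
        exact mul_le_mul_of_nonneg_left (w_le (by positivity) _) (hr_nonneg z)
    calc ‖∫ z, (hr β z • s • u (s * (x - z)) - hr β x • s • u (s * (x - z)))‖
        ≤ ∫ z, ((Metric.closedBall x (r / s)).indicator (fun z => K * s * ‖hr β z - hr β x‖) z +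
            2 * K / r * (hr β z * w (s / r) (x - z) + hr β x * w (s / r) (x - z))) := by
          apply norm_integral_le_of_norm_le
          · exact hiB2.add ((hihw.add (hiw.const_mul _)).const_mul _)
          · refine Eventually.of_forall fun z => ?_
            rw [← sub_smul, norm_smul, norm_smul, Real.norm_of_nonneg hs0.le]
            have hw0 : 0 ≤ w (s / r) (x - z) := w_nonneg (by positivity) _
            have hhz := hr_nonneg (β := β) z
            have hhx := hr_nonneg (β := β) x
            by_cases hz : z ∈ Metric.closedBall x (r / s)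
            · rw [indicator_of_mem hz]
              have h1 : ‖hr β z - hr β x‖ * (s * ‖u (s * (x - z))‖) ≤ K * s * ‖hr β z - hr β x‖ := by
                calc ‖hr β z - hr β x‖ * (s * ‖u (s * (x - z))‖) ≤ ‖hr β z - hr β x‖ * (s * K) := by
                      gcongr
                      exact hub _
                  _ = _ := by ring
              have h2 : 0 ≤ 2 * K / r * (hr β z * w (s / r) (x - z) + hr β x * w (s / r) (x - z)) := by
                positivity
              linarith
            · rw [indicator_of_notMem hz, zero_add]
              have h3 : ‖hr β z - hr β x‖ ≤ hr β z + hr β x := by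
                rw [Real.norm_eq_abs, abs_le]
                constructor <;> linarith
              have h4 : s * ‖u (s * (x - z))‖ ≤ 2 * K / r * w (s / r) (x - z) := by
                have h5 : r < |s * (x - z)| := by
                  rw [Metric.mem_closedBall, Real.dist_eq, not_le, abs_sub_comm, div_lt_iff₀ hs0] at hz
                  rw [abs_mul, abs_of_pos hs0]
                  linarith
                have h6 : r ^ 2 < (s * (x - z)) ^ 2 := by
                  rw [← sq_abs (s * (x - z))]
                  exact pow_lt_pow_left₀ h5 hr0.le (by norm_num)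
                calc s * ‖u (s * (x - z))‖ ≤ s * (K * w 1 (s * (x - z))) := by
                      gcongr
                      exact hK _
                  _ ≤ 2 * K / r * w (s / r) (x - z) := by
                      unfold w
                      rw [show (s / r * (x - z)) ^ 2 = (s * (x - z)) ^ 2 / r ^ 2 by
                        rw [div_mul_eq_mul_div, div_pow]]
                      have h7 : 2 * K / r * (s / r / (1 + (s * (x - z)) ^ 2 / r ^ 2)) =
                          (s * K) * (2 / (r ^ 2 + (s * (x - z)) ^ 2)) := by
                        have : r ^ 2 + (s * (x - z)) ^ 2 ≠ 0 := by positivity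
                        field_simp
                      rw [h7, one_mul, ← mul_assoc]
                      apply mul_le_mul_of_nonneg_left _ (by positivity)
                      rw [div_le_div_iff₀ (by positivity) (by positivity)]
                      linarith
              calc ‖hr β z - hr β x‖ * (s * ‖u (s * (x - z))‖)
                  ≤ (hr β z + hr β x) * (2 * K / r * w (s / r) (x - z)) := by
                    apply mul_le_mul h3 h4 (by positivity) (by positivity)
                _ = _ := by ring
      _ = K * s * (∫ z in Metric.closedBall x (r / s), ‖hr β z - hr β x‖) +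
            2 * K / r * ((∫ z, w (s / r) (x - z) ∂(bernoulliConv β)) + hr β x * Real.pi) := by
          have hj1 : Integrable (fun z => hr β x * w (s / r) (x - z)) := hiw.const_mul _
          have hj2 : Integrable (fun z => 2 * K / r * (hr β z * w (s / r) (x - z) + hr β x * w (s / r) (x - z))) :=
            (hihw.add hj1).const_mul _
          rw [integral_add hiB2 hj2, integral_const_mul,
            integral_add hihw hj1, integral_const_mul, integral_w_sub (by positivity),
            integral_indicator Metric.isClosed_closedBall.measurableSet, integral_const_mul]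
          have h10 := integral_rnDeriv_smul (f := fun z => w (s / r) (x - z)) hac
          simp only [smul_eq_mul] at h10
          rw [← h10]
          rfl
      _ ≤ _ := by
          have h8 := integral_w_le hx.nonneg hx.bound (d := s / r) (by positivity)
          have h9 : ∫ z in Metric.closedBall x (r / s), ‖hr β z - hr β x‖ =
              2 * (r / s) * ⨍ z in Metric.closedBall x (r / s), ‖hr β z - hr β x‖ := by
            rw [setAverage_eq, hvol, smul_eq_mul, ← mul_assoc, mul_inv_cancel₀ (by positivity), one_mul]
          rw [h9]
          apply add_le_add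
          · apply le_of_eq
            field_simp
          · apply mul_le_mul_of_nonneg_left _ (by positivity)
            linarith
  rw [Metric.tendsto_atTop]
  intro ε hε
  set C : ℝ := 2 * K * (16 * M + hr β x * Real.pi) with hC
  have hC0 : 0 ≤ C := by
    have := hx.nonneg
    have := hr_nonneg (β := β) x
    have := Real.pi_pos
    positivity
  set r : ℝ := 2 * (C + 1) / ε with hr
  have hr0 : 0 < r := by positivity
  have h1 : 2 * K / r * (16 * M + Pool.Agent.D0H98.BC.hr β x * Real.pi) < ε / 2 := by
    have : 2 * K / r * (16 * M + Pool.Agent.D0H98.BC.hr β x * Real.pi) = C / r := by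
      rw [hC]; ring
    rw [this, hr, div_div_eq_mul_div, div_lt_div_iff₀ (by positivity) (by positivity)]
    nlinarith
  have hrad : Tendsto (fun n : ℕ => r / β ^ n) atTop (𝓝[>] 0) := by
    refine tendsto_nhdsWithin_iff.mpr ⟨?_, Eventually.of_forall fun n => ?_⟩
    · exact Tendsto.div_atTop tendsto_const_nhds (tendsto_pow_atTop_atTop_of_one_lt hβ)
    · rw [mem_Ioi]
      positivity
  have h2 := (hx.leb.comp hrad).const_mul (2 * K * r)
  rw [mul_zero] at h2
  obtain ⟨N, hN⟩ := eventually_atTop.1 (h2.eventually (gt_mem_nhds (half_pos hε)))
  refine ⟨N, fun n hn => ?_⟩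
  rw [dist_eq_norm]
  have h3 := key r hr0 n
  have h4 := hN n hn
  simp only [Function.comp_apply] at h4
  linarith

end Pool.Agent.D0H98.BC
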