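import Pool.Agent.D0H98.BC.Base

/-!
# The operator `T g (y) = (β/2) (g (β y) + g (β y - 1))` and its iterates; convolutions with the
Bernoulli convolution
-/

set_option autoImplicit false

open MeasureTheory Filter Topology Set
open scoped ENNReal

namespace Pool.Agent.D0H98.BC

variable {E : Type*} [NormedAddCommGroup E] [NormedSpace ℝ E]

/-- The transfer operator. -/
noncomputable def T (β : ℝ) (g : ℝ → E) (y : ℝ) : E := (β / 2) • (g (β * y) + g (β * y - 1))

/-- The iterates of the transfer operator. -/
noncomputable def It (β : ℝ) (g : ℝ → E) : ℕ → ℝ → E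
  | 0 => g
  | n + 1 => T β (It β g n)

variable {β : ℝ}

lemma It_comp (g : ℝ → E) (n k : ℕ) : It β g (n + k) = It β (It β g k) n := by
  induction n with
  | zero => simp [It]
  | succ n ih =>
    rw [show n + 1 + k = (n + k) + 1 by ring]
    simp only [It]
    rw [ih]

lemma It_add_fun (g h : ℝ → E) (n : ℕ) (y : ℝ) :
    It β (fun t => g t + h t) n y = It β g n y + It β h n y := by
  induction n generalizing y with
  | zero => simp [It]
  | succ n ih =>
    simp only [It, T]
    rw [ih, ih, ← smul_add]
    congr 1
    abel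

lemma It_sub_fun (g h : ℝ → E) (n : ℕ) (y : ℝ) :
    It β (fun t => g t - h t) n y = It β g n y - It β h n y := by
  induction n generalizing y with
  | zero => simp [It]
  | succ n ih =>
    simp only [It, T]
    rw [ih, ih, ← smul_sub]
    congr 1
    abel

lemma It_const_mul (c : ℝ) (g : ℝ → ℝ) (n : ℕ) (y : ℝ) :
    It β (fun t => c * g t) n y = c * It β g n y := by
  induction n generalizing y with
  | zero => simp [It]
  | succ n ih =>
    simp only [It, T, smul_eq_mul]
    rw [ih, ih]
    ring

lemma It_ofReal (g : ℝ → ℝ) (n : ℕ) (y : ℝ) :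
    It β (fun t => ((g t : ℝ) : ℂ)) n y = ((It β g n y : ℝ) : ℂ) := by
  induction n generalizing y with
  | zero => simp [It]
  | succ n ih =>
    simp only [It, T, smul_eq_mul]
    rw [ih, ih]
    simp
    ring

lemma norm_It_le (hβ : 0 ≤ β) {g : ℝ → E} {G : ℝ → ℝ} (h : ∀ y, ‖g y‖ ≤ G y) (n : ℕ) (y : ℝ) :
    ‖It β g n y‖ ≤ It β G n y := by
  induction n generalizing y with
  | zero => exact h y
  | succ n ih =>
    simp only [It, T, smul_eq_mul]
    rw [norm_smul, Real.norm_of_nonneg (by positivity)]
    apply mul_le_mul_of_nonneg_left _ (by positivity)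
    exact (norm_add_le _ _).trans (add_le_add (ih _) (ih _))

lemma It_mono (hβ : 0 ≤ β) {g G : ℝ → ℝ} (h : ∀ y, g y ≤ G y) (n : ℕ) (y : ℝ) :
    It β g n y ≤ It β G n y := by
  induction n generalizing y with
  | zero => exact h y
  | succ n ih =>
    simp only [It, T, smul_eq_mul]
    apply mul_le_mul_of_nonneg_left _ (by positivity)
    exact add_le_add (ih _) (ih _)

/-! ### Self-similarity for integrals -/

lemma measure_eq (hβ : 1 < β) : bernoulliConv β =
    (2⁻¹ : ℝ≥0∞) • (bernoulliConv β).map (fun z => z / β) +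
      (2⁻¹ : ℝ≥0∞) • (bernoulliConv β).map (fun z => (1 + z) / β) := by
  ext A hA
  rw [Measure.add_apply, Measure.smul_apply, Measure.smul_apply,
    Measure.map_apply (by fun_prop) hA, Measure.map_apply (by fun_prop) hA]
  exact self_similar hβ hA

omit [NormedSpace ℝ E] in
/-- Bounded continuous functions are integrable. -/
lemma integrable_bdd [Fact (1 < β)] {u : ℝ → E} (hu : Continuous u) {C : ℝ} (hC : ∀ y, ‖u y‖ ≤ C) :
    Integrable u (bernoulliConv β) := by
  refine Integrable.mono' (integrable_const C) ?_ (Eventually.of_forall hC)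
  exact hu.aestronglyMeasurable

/-- Self-similarity of the Bernoulli convolution, for integrals. -/
lemma integral_self_similar [Fact (1 < β)] {u : ℝ → E} (hu : Continuous u) {C : ℝ}
    (hC : ∀ y, ‖u y‖ ≤ C) : ∫ z, u z ∂(bernoulliConv β) =
      (2⁻¹ : ℝ) • ((∫ z, u (z / β) ∂(bernoulliConv β)) + ∫ z, u ((1 + z) / β) ∂(bernoulliConv β)) := by
  have hβ : 1 < β := Fact.out
  have m0 : Measurable fun z : ℝ => z / β := by fun_prop
  have m1 : Measurable fun z : ℝ => (1 + z) / β := by fun_prop
  have c0 : Continuous fun z : ℝ => z / β := by fun_prop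
  have c1 : Continuous fun z : ℝ => (1 + z) / β := by fun_prop
  have i0 : Integrable u ((bernoulliConv β).map (fun z => z / β)) := by
    rw [integrable_map_measure hu.aestronglyMeasurable m0.aemeasurable]
    exact integrable_bdd (hu.comp c0) (fun y => hC _)
  have i1 : Integrable u ((bernoulliConv β).map (fun z => (1 + z) / β)) := by
    rw [integrable_map_measure hu.aestronglyMeasurable m1.aemeasurable]
    exact integrable_bdd (hu.comp c1) (fun y => hC _)
  conv_lhs => rw [measure_eq hβ]
  rw [integral_add_measure (i0.smul_measure (by norm_num)) (i1.smul_measure (by norm_num)),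
    integral_smul_measure, integral_smul_measure,
    integral_map m0.aemeasurable hu.aestronglyMeasurable,
    integral_map m1.aemeasurable hu.aestronglyMeasurable]
  rw [smul_add]
  norm_num

/-- Convolution with the Bernoulli convolution. -/
noncomputable def conv (β : ℝ) (u : ℝ → E) (y : ℝ) : E := ∫ z, u (y - z) ∂(bernoulliConv β)

lemma T_conv [Fact (1 < β)] {u : ℝ → E} (hu : Continuous u) {C : ℝ} (hC : ∀ y, ‖u y‖ ≤ C) :
    T β (conv β u) = conv β (fun y => β • u (β * y)) := by
  have hβ : 1 < β := Fact.out
  have hβ0 : β ≠ 0 := by positivity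
  ext y
  have h := integral_self_similar (β := β) (u := fun z => β • u (β * (y - z)))
    (by fun_prop) (C := |β| * C) (fun z => by
      rw [norm_smul, Real.norm_eq_abs]
      exact mul_le_mul_of_nonneg_left (hC _) (abs_nonneg _))
  unfold T conv
  rw [h, integral_smul, integral_smul, ← smul_add, smul_smul]
  congr 1
  · ring
  · congr 1
    · congr 1
      ext z
      congr 1
      field_simp
    · congr 1
      ext z
      congr 1
      field_simp
      ring

lemma It_conv [Fact (1 < β)] {u : ℝ → E} (hu : Continuous u) {C : ℝ} (hC : ∀ y, ‖u y‖ ≤ C) (n : ℕ) :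
    It β (conv β u) n = conv β (fun y => β ^ n • u (β ^ n * y)) := by
  have hβ : 1 < β := Fact.out
  induction n with
  | zero => simp [It]
  | succ n ih =>
    simp only [It]
    rw [ih, T_conv (u := fun y => β ^ n • u (β ^ n * y)) (by fun_prop) (C := β ^ n * C) (fun z => by
      rw [norm_smul, Real.norm_of_nonneg (by positivity)]
      exact mul_le_mul_of_nonneg_left (hC _) (by positivity))]
    congr 1
    ext y
    rw [smul_smul, pow_succ']
    congr 2
    ring

lemma ae_mem [Fact (1 < β)] : ∀ᵐ z ∂(bernoulliConv β), z ∈ Icc 0 (1 / (β - 1)) := by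
  have hβ : 1 < β := Fact.out
  unfold bernoulliConv
  refine (ae_map_iff (p := fun z => z ∈ Icc (0 : ℝ) (1 / (β - 1)))
    (continuous_expansion hβ).aemeasurable measurableSet_Icc).2 ?_
  exact Eventually.of_forall (expansion_mem hβ)

/-! ### The Cauchy kernels -/

/-- The kernel `d / (1 + (d y)^2)`. -/
noncomputable def w (d : ℝ) (y : ℝ) : ℝ := d / (1 + (d * y) ^ 2)

lemma w_nonneg {d : ℝ} (hd : 0 ≤ d) (y : ℝ) : 0 ≤ w d y := by unfold w; positivity

lemma w_le {d : ℝ} (hd : 0 ≤ d) (y : ℝ) : w d y ≤ d := by
  unfold w
  apply div_le_self hd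
  nlinarith [sq_nonneg (d * y)]

lemma continuous_w (d : ℝ) : Continuous (w d) := by
  unfold w
  apply Continuous.div (by fun_prop) (by fun_prop)
  intro y
  positivity

lemma w_scale {s : ℝ} (d y : ℝ) : s * w d (s * y) = w (s * d) y := by
  unfold w
  rw [show d * (s * y) = s * d * y by ring, mul_div_assoc]

/-- Dyadic bound of the kernel. -/
lemma w_dyadic {d : ℝ} (hd : 0 < d) (J : ℕ) (y : ℝ) :
    w d y ≤ ∑ j ∈ Finset.range J, (4 * d / 4 ^ j) * (if |y| ≤ 2 ^ j / d then 1 else 0) +
      4 * d / 4 ^ J := by
  induction J with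
  | zero =>
    simp only [Finset.range_zero, Finset.sum_empty, pow_zero, zero_add, div_one]
    have := w_le hd.le y
    linarith
  | succ J ih =>
    rw [Finset.sum_range_succ]
    by_cases h : |y| ≤ 2 ^ J / d
    · rw [if_pos h]
      have : 0 ≤ 4 * d / 4 ^ (J + 1) := by positivity
      linarith
    · rw [if_neg h, mul_zero, add_zero]
      push Not at h
      have hs : 0 ≤ ∑ j ∈ Finset.range J, (4 * d / 4 ^ j) * (if |y| ≤ 2 ^ j / d then (1 : ℝ) else 0) := by
        apply Finset.sum_nonneg
        intro j _
        split_ifs <;> positivity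
      have h2 : w d y ≤ 4 * d / 4 ^ (J + 1) := by
        unfold w
        rw [div_lt_iff₀ hd] at h
        have h3 : (4 : ℝ) ^ J < (d * y) ^ 2 := by
          have h4 : (2 : ℝ) ^ J < |d * y| := by
            rw [abs_mul, abs_of_pos hd]
            linarith
          have h5 : ((2 : ℝ) ^ J) ^ 2 < |d * y| ^ 2 := by
            have : (0 : ℝ) ≤ 2 ^ J := by positivity
            nlinarith
          rw [sq_abs] at h5
          calc (4 : ℝ) ^ J = ((2 : ℝ) ^ J) ^ 2 := by
                rw [← pow_mul, mul_comm, pow_mul]
                norm_num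
            _ < _ := h5
        have h6 : (0 : ℝ) < 4 ^ J := by positivity
        have h7 : (0 : ℝ) < 1 + (d * y) ^ 2 := by positivity
        rw [div_le_div_iff₀ h7 (by positivity), pow_succ (4 : ℝ) J]
        nlinarith
      linarith

/-- The bound of the averages of the kernel by the maximal function. -/
lemma integral_w_le [Fact (1 < β)] {x M : ℝ} (hM0 : 0 ≤ M)
    (hM : ∀ ρ, 0 < ρ → (bernoulliConv β).real (Metric.closedBall x ρ) ≤ 2 * M * ρ) {d : ℝ}
    (hd : 0 < d) : ∫ z, w d (x - z) ∂(bernoulliConv β) ≤ 16 * M := by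
  have key : ∀ J : ℕ, ∫ z, w d (x - z) ∂(bernoulliConv β) ≤ 16 * M + 4 * d / 4 ^ J := by
    intro J
    have hset : ∀ ρ : ℝ, ∀ z, (if |x - z| ≤ ρ then (1 : ℝ) else 0) =
        (Metric.closedBall x ρ).indicator (fun _ => (1 : ℝ)) z := by
      classical
      intro ρ z
      by_cases h : |x - z| ≤ ρ
      · rw [if_pos h, indicator_of_mem]
        rw [Metric.mem_closedBall, Real.dist_eq, abs_sub_comm]
        exact h
      · rw [if_neg h, indicator_of_notMem]
        rw [Metric.mem_closedBall, Real.dist_eq, abs_sub_comm]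
        exact h
    have hint : ∀ ρ : ℝ, Integrable (fun z => if |x - z| ≤ ρ then (1 : ℝ) else 0) (bernoulliConv β) := by
      intro ρ
      simp only [hset]
      exact (integrable_const 1).indicator Metric.isClosed_closedBall.measurableSet
    calc ∫ z, w d (x - z) ∂(bernoulliConv β)
        ≤ ∫ z, (∑ j ∈ Finset.range J, (4 * d / 4 ^ j) * (if |x - z| ≤ 2 ^ j / d then 1 else 0) +
            4 * d / 4 ^ J) ∂(bernoulliConv β) := by
          apply integral_mono
          · exact integrable_bdd ((continuous_w d).comp (by fun_prop)) (C := d) (fun y => by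
              rw [Real.norm_of_nonneg (w_nonneg hd.le _)]
              exact w_le hd.le _)
          · exact (integrable_finsetSum _ fun j _ => (hint _).const_mul _).add (integrable_const _)
          · intro z
            exact w_dyadic hd J (x - z)
      _ = ∑ j ∈ Finset.range J, (4 * d / 4 ^ j) * (bernoulliConv β).real (Metric.closedBall x (2 ^ j / d)) +
            4 * d / 4 ^ J := by
          rw [integral_add (integrable_finsetSum _ fun j _ => (hint _).const_mul _) (integrable_const _),
            integral_finsetSum _ fun j _ => (hint _).const_mul _]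
          congr 1
          · apply Finset.sum_congr rfl
            intro j _
            rw [integral_const_mul]
            congr 1
            simp only [hset]
            rw [integral_indicator Metric.isClosed_closedBall.measurableSet]
            simp
          · simp
      _ ≤ ∑ j ∈ Finset.range J, 8 * M * (1 / 2) ^ j + 4 * d / 4 ^ J := by
          apply add_le_add _ le_rfl
          apply Finset.sum_le_sum
          intro j _
          calc (4 * d / 4 ^ j) * (bernoulliConv β).real (Metric.closedBall x (2 ^ j / d))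
              ≤ (4 * d / 4 ^ j) * (2 * M * (2 ^ j / d)) :=
                mul_le_mul_of_nonneg_left (hM _ (by positivity)) (by positivity)
            _ = 8 * M * (1 / 2) ^ j := by
                rw [one_div, inv_pow, show (4 : ℝ) ^ j = 2 ^ j * 2 ^ j by
                  rw [← mul_pow]; norm_num]
                field_simp
                ring
      _ ≤ 16 * M + 4 * d / 4 ^ J := by
          gcongr
          rw [← Finset.mul_sum]
          have h1 : ∑ j ∈ Finset.range J, (1 / 2 : ℝ) ^ j ≤ 2 := sum_geometric_two_le J
          nlinarith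
  have hl : Tendsto (fun J : ℕ => 16 * M + 4 * d / 4 ^ J) atTop (𝓝 (16 * M + 0)) := by
    apply Tendsto.const_add
    apply Tendsto.div_atTop tendsto_const_nhds
    exact tendsto_pow_atTop_atTop_of_one_lt (by norm_num)
  rw [add_zero] at hl
  exact ge_of_tendsto' hl key

/-- The uniform bound of the iterates of the kernels. -/
lemma It_w_le [Fact (1 < β)] {x M : ℝ} (hM0 : 0 ≤ M)
    (hM : ∀ ρ, 0 < ρ → (bernoulliConv β).real (Metric.closedBall x ρ) ≤ 2 * M * ρ) {d : ℝ}
    (hd : 0 < d) (hd1 : d ≤ 1) (n : ℕ) :
    It β (w d) n x ≤ 32 * (1 + (1 / (β - 1)) ^ 2) * M := by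
  have hβ : 1 < β := Fact.out
  set c : ℝ := 1 / (β - 1) with hc
  have hc0 : 0 ≤ c := by rw [hc]; apply div_nonneg zero_le_one; linarith
  have h1 : ∀ y, w d y ≤ 2 * (1 + c ^ 2) * conv β (w d) y := by
    intro y
    unfold conv
    rw [← integral_const_mul]
    have h2 : ∫ _, w d y ∂(bernoulliConv β) = w d y := by simp
    rw [← h2]
    apply integral_mono_ae (integrable_const _)
    · exact (integrable_bdd (u := fun z => w d (y - z)) ((continuous_w d).comp (by fun_prop)) (C := d) (fun y => by
              rw [Real.norm_of_nonneg (w_nonneg hd.le _)]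
              exact w_le hd.le _)).const_mul _
    · filter_upwards [ae_mem (β := β)] with z hz
      obtain ⟨hz0, hz1⟩ := hz
      unfold w
      rw [← mul_div_assoc, div_le_div_iff₀ (by positivity) (by positivity)]
      have h3 : z ^ 2 ≤ c ^ 2 := by nlinarith
      have h4 : (d * (y - z)) ^ 2 ≤ 2 * (d * y) ^ 2 + 2 * c ^ 2 := by
        have h5 : (d * z) ^ 2 ≤ c ^ 2 := by
          rw [mul_pow]
          have : d ^ 2 ≤ 1 := by nlinarith
          nlinarith [sq_nonneg z]
        nlinarith [sq_nonneg (d * y + d * z)]
      have h6 : 1 + (d * (y - z)) ^ 2 ≤ 2 * (1 + c ^ 2) * (1 + (d * y) ^ 2) := by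
        nlinarith [sq_nonneg (d * y), sq_nonneg c, mul_nonneg (sq_nonneg c) (sq_nonneg (d * y))]
      nlinarith
  have hb : ∀ y, ‖w d y‖ ≤ d := fun y => by
    rw [Real.norm_of_nonneg (w_nonneg hd.le _)]
    exact w_le hd.le _
  calc It β (w d) n x ≤ It β (fun y => 2 * (1 + c ^ 2) * conv β (w d) y) n x :=
        It_mono (by linarith) h1 n x
    _ = 2 * (1 + c ^ 2) * It β (conv β (w d)) n x := It_const_mul _ _ _ _
    _ = 2 * (1 + c ^ 2) * ∫ z, w (β ^ n * d) (x - z) ∂(bernoulliConv β) := by
        rw [It_conv (continuous_w d) hb]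
        unfold conv
        congr 2
        ext z
        exact w_scale d (x - z)
    _ ≤ 2 * (1 + c ^ 2) * (16 * M) := by
        apply mul_le_mul_of_nonneg_left _ (by positivity)
        exact integral_w_le hM0 hM (by positivity)
    _ = _ := by ring

end Pool.Agent.D0H98.BC
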