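import Pool.Agent.D0H98.BC.Bump

/-!
# Convergence at good points for Fourier transforms of test functions
-/

set_option autoImplicit false

open MeasureTheory Filter Topology Set
open scoped FourierTransform

namespace Pool.Agent.D0H98.BC

variable {β : ℝ}

/-- The constant in the bound of the iterates of the kernels. -/
noncomputable def CC (β M : ℝ) : ℝ := 32 * (1 + (1 / (β - 1)) ^ 2) * M

lemma CC_nonneg {M : ℝ} (hM : 0 ≤ M) : 0 ≤ CC β M := by unfold CC; positivity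

lemma norm_It_le_of_w [Fact (1 < β)] {x M : ℝ} (hx : Good β x M) {d : ℝ} (hd : 0 < d) (hd1 : d ≤ 1)
    {g : ℝ → ℂ} {K : ℝ} (hK : 0 ≤ K) (hg : ∀ y, ‖g y‖ ≤ K * w d y) (n : ℕ) :
    ‖It β g n x‖ ≤ K * CC β M := by
  have hβ : 1 < β := Fact.out
  calc ‖It β g n x‖ ≤ It β (fun y => K * w d y) n x := norm_It_le (by linarith) hg n x
    _ = K * It β (w d) n x := It_const_mul _ _ _ _
    _ ≤ K * CC β M := mul_le_mul_of_nonneg_left (It_w_le hx.nonneg hx.bound hd hd1 n) hK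

lemma F_add {Φ Ψ : ℝ → ℂ} (h1 : Integrable Φ) (h2 : Integrable Ψ) :
    F (fun ξ => Φ ξ + Ψ ξ) = fun y => F Φ y + F Ψ y := by
  ext y
  unfold F
  rw [← integral_add (integrable_ee_mul h1 (by fun_prop)) (integrable_ee_mul h2 (by fun_prop))]
  congr 1
  ext ξ
  ring

/-- The contribution of a narrow bump is small. -/
lemma bump_small [Fact (1 < β)] (hβ2 : β < 2) (hac : bernoulliConv β ≪ volume) {x M : ℝ}
    (hx : Good β x M) {Φ : ℝ → ℂ} (hΦ : ContDiff ℝ 2 Φ) (hc : HasCompactSupport Φ) {ζ : ℝ} (hζ : ζ ≠ 0)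
    {ε : ℝ} (hε : 0 < ε) : ∃ d₀ : ℝ, 0 < d₀ ∧ ∀ d, 0 < d → d < d₀ → ∃ N : ℕ, ∀ n, N ≤ n →
      ‖It β (F (fun ξ => Φ ξ * chi ((ξ - ζ) / d))) n x‖ ≤ ε := by
  have hβ : 1 < β := Fact.out
  have hC := CC_nonneg (β := β) hx.nonneg
  set C := CC β M
  have hW := W_nonneg
  -- choose `k`
  obtain ⟨k, hk⟩ : ∃ k : ℕ, ‖kk β k ζ‖ * ‖Φ ζ‖ * W * C < ε / 2 := by
    have h1 := (((tendsto_kk hβ2 hac hζ).norm.mul_const ‖Φ ζ‖).mul_const W).mul_const C
    rw [norm_zero, zero_mul, zero_mul, zero_mul] at h1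
    exact (h1.eventually (gt_mem_nhds (half_pos hε))).exists
  have hq : D2 (fun ξ => kk β k ξ * Φ ξ) _ _ :=
    D2.of_contDiff ((contDiff_kk (n := 2) k).mul hΦ) hc.mul_left
  obtain ⟨d₀, hd₀, h⟩ := bump_bound hq ζ (ε := ε / (2 * (C + 1))) (by positivity)
  refine ⟨min d₀ (β ^ k)⁻¹, lt_min hd₀ (by positivity), fun d hd hdd => ⟨k, fun n hn => ?_⟩⟩
  have hd1 : d < d₀ := hdd.trans_le (min_le_left _ _)
  have hd2 : β ^ k * d ≤ 1 := by
    have h1 : d ≤ (β ^ k)⁻¹ := (hdd.trans_le (min_le_right _ _)).le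
    calc β ^ k * d ≤ β ^ k * (β ^ k)⁻¹ := mul_le_mul_of_nonneg_left h1 (by positivity)
      _ = 1 := mul_inv_cancel₀ (by positivity)
  have hint : Integrable (fun ξ => Φ ξ * chi ((ξ - ζ) / d)) := by
    apply Continuous.integrable_of_hasCompactSupport
    · have := (contDiff_chi (n := 0)).continuous
      have := hΦ.continuous
      fun_prop
    · exact hc.mul_right
  have e1 : It β (F (fun ξ => Φ ξ * chi ((ξ - ζ) / d))) n x =
      It β (It β (F (fun ξ => Φ ξ * chi ((ξ - ζ) / d))) k) (n - k) x := by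
    rw [← It_comp]
    congr 1
    omega
  rw [e1]
  have e2 : ∀ y, ‖It β (F (fun ξ => Φ ξ * chi ((ξ - ζ) / d))) k y‖ ≤
      (‖kk β k ζ * Φ ζ‖ * W + ε / (2 * (C + 1))) * w (β ^ k * d) y := by
    intro y
    rw [It_F hint, norm_mul, norm_pow, Complex.norm_real, Real.norm_of_nonneg (by linarith : 0 ≤ β), ← w_scale]
    have h2 := h d hd hd1 (β ^ k * y)
    have e3 : (fun ξ => kk β k ξ * (Φ ξ * chi ((ξ - ζ) / d))) =
        fun ξ => kk β k ξ * Φ ξ * chi ((ξ - ζ) / d) := by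
      ext ξ
      ring
    rw [e3]
    calc β ^ k * ‖F (fun ξ => kk β k ξ * Φ ξ * chi ((ξ - ζ) / d)) (β ^ k * y)‖
        ≤ β ^ k * ((‖kk β k ζ * Φ ζ‖ * W + ε / (2 * (C + 1))) * w d (β ^ k * y)) :=
          mul_le_mul_of_nonneg_left h2 (by positivity)
      _ = _ := by ring
  have h3 := norm_It_le_of_w hx (by positivity) hd2 (by positivity) e2 (n - k)
  refine h3.trans ?_
  rw [add_mul, norm_mul]
  have h4 : ε / (2 * (C + 1)) * C ≤ ε / 2 := by
    rw [div_mul_eq_mul_div, div_le_div_iff₀ (by positivity) (by norm_num)]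
    nlinarith
  linarith

lemma continuous_F {Φ : ℝ → ℂ} (h : Integrable Φ) : Continuous (F Φ) := by
  unfold F
  apply continuous_of_dominated (bound := fun ξ => ‖Φ ξ‖)
  · intro y
    exact (integrable_ee_mul h (by fun_prop)).aestronglyMeasurable
  · intro y
    refine Eventually.of_forall fun ξ => ?_
    rw [norm_mul, norm_ee, one_mul]
  · exact h.norm
  · refine Eventually.of_forall fun ξ => ?_
    exact (continuous_ee.comp (by fun_prop)).mul continuous_const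

lemma integral_F {Φ Φ1 Φ2 : ℝ → ℂ} (h : D2 Φ Φ1 Φ2) : ∫ y, F Φ y = Φ 0 := by
  have hi : Integrable (F Φ) := by
    refine Integrable.mono' ((integrable_w zero_lt_one).const_mul ((∫ t, ‖Φ t‖) + ∫ t, ‖Φ2 t‖))
      (continuous_F h.i0).aestronglyMeasurable (Eventually.of_forall fun y => ?_)
    exact norm_F_le_w h.h1 h.h2 h.i0 h.i1 h.i2 y
  rw [F_eq] at hi ⊢
  have h1 := h.c0.fourierInv_fourier_eq h.i0 hi
  have h2 := congrFun h1 0
  rw [Real.fourierInv_eq'] at h2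
  simpa using h2

/-- The case without zeros. -/
lemma tendsto_of_ne_zero [Fact (1 < β)] (hac : bernoulliConv β ≪ volume) {x M : ℝ} (hx : Good β x M)
    {Φ : ℝ → ℂ} (hΦ : ContDiff ℝ 2 Φ) (hc : HasCompactSupport Φ)
    (hne : ∀ ξ ∈ tsupport Φ, nuhat β ξ ≠ 0) :
    Tendsto (fun n => It β (F Φ) n x) atTop (𝓝 ((hr β x : ℂ) * Φ 0)) := by
  set Ψ : ℝ → ℂ := fun ξ => Φ ξ * (nuhat β ξ)⁻¹ with hΨ
  have hν : ContDiff ℝ 2 (nuhat β) := contDiff_nuhat (n := 2)
  have h1 : ContDiff ℝ 2 Ψ := by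
    rw [contDiff_iff_contDiffAt]
    intro ξ
    by_cases h : ξ ∈ tsupport Φ
    · exact hΦ.contDiffAt.mul (hν.contDiffAt.inv (hne ξ h))
    · have h2 : Ψ =ᶠ[𝓝 ξ] fun _ => 0 := by
        filter_upwards [notMem_tsupport_iff_eventuallyEq.1 h] with t ht
        simp only [hΨ]
        rw [ht]
        simp
      exact contDiffAt_const.congr_of_eventuallyEq h2
  have h2 : HasCompactSupport Ψ := hc.mul_right
  have hD := D2.of_contDiff h1 h2
  have h3 : (fun ξ => Ψ ξ * nuhat β ξ) = Φ := by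
    ext ξ
    simp only [hΨ]
    by_cases h : Φ ξ = 0
    · rw [h]; simp
    · rw [mul_assoc, inv_mul_cancel₀ (hne ξ (subset_tsupport _ h)), mul_one]
  have h4 : F Φ = conv β (F Ψ) := by
    rw [← F_mul_nuhat hD.i0, h3]
  have h5 := tendsto_conv hac hx (continuous_F hD.i0)
    (fun y => norm_F_le_w hD.h1 hD.h2 hD.i0 hD.i1 hD.i2 y)
  rw [← h4, integral_F hD] at h5
  have h6 : Ψ 0 = Φ 0 := by
    simp only [hΨ]
    rw [nuhat_zero, inv_one, mul_one]
  rw [h6] at h5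
  exact h5

/-- Convergence for test functions with compact support. -/
lemma tendsto_finset [Fact (1 < β)] (hβ2 : β < 2) (hac : bernoulliConv β ≪ volume) {x M : ℝ}
    (hx : Good β x M) (Z : Finset ℝ) : (∀ ζ ∈ Z, ζ ≠ 0) → ∀ {Φ : ℝ → ℂ}, ContDiff ℝ 2 Φ →
    HasCompactSupport Φ → (∀ ξ ∈ tsupport Φ, nuhat β ξ = 0 → ξ ∈ Z) →
    Tendsto (fun n => It β (F Φ) n x) atTop (𝓝 ((hr β x : ℂ) * Φ 0)) := by
  classical
  induction Z using Finset.induction_on with
  | empty =>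
    intro _ Φ hΦ hc hz
    refine tendsto_of_ne_zero hac hx hΦ hc fun ξ hξ h0 => ?_
    exact absurd (hz ξ hξ h0) (Finset.notMem_empty _)
  | insert ζ Z _ ih =>
    intro h0 Φ hΦ hc hz
    have hζ : ζ ≠ 0 := h0 ζ (Finset.mem_insert_self _ _)
    rw [Metric.tendsto_atTop]
    intro ε hε
    obtain ⟨d₀, hd₀, hb⟩ := bump_small hβ2 hac hx hΦ hc hζ (ε := ε / 2) (by positivity)
    set d : ℝ := min (d₀ / 2) |ζ| with hd
    have hdpos : 0 < d := lt_min (by positivity) (abs_pos.2 hζ)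
    have hdd : d < d₀ := (min_le_left _ _).trans_lt (by linarith)
    have hdζ : d ≤ |ζ| := min_le_right _ _
    obtain ⟨N, hN⟩ := hb d hdpos hdd
    set Φ' : ℝ → ℂ := fun ξ => Φ ξ * (1 - chi ((ξ - ζ) / d)) with hΦ'
    have hχ : ContDiff ℝ 2 fun ξ : ℝ => chi ((ξ - ζ) / d) := by
      have := contDiff_chi (n := 2)
      exact this.comp (by fun_prop)
    have h1 : ContDiff ℝ 2 Φ' := hΦ.mul (contDiff_const.sub hχ)
    have h2 : HasCompactSupport Φ' := hc.mul_right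
    have h3 : ζ ∉ tsupport Φ' := by
      rw [notMem_tsupport_iff_eventuallyEq]
      filter_upwards [Metric.ball_mem_nhds ζ (half_pos hdpos)] with t ht
      rw [Metric.mem_ball, Real.dist_eq] at ht
      simp only [hΦ']
      rw [chi_one]
      · simp
      · rw [abs_div, abs_of_pos hdpos, div_le_iff₀ hdpos]
        linarith
    have h4 : tsupport Φ' ⊆ tsupport Φ := closure_mono (Function.support_mul_subset_left _ _)
    have h5 := ih (fun ξ hξ => h0 ξ (Finset.mem_insert_of_mem hξ)) h1 h2 (fun ξ hξ hn => by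
      have h6 := hz ξ (h4 hξ) hn
      rw [Finset.mem_insert] at h6
      rcases h6 with h6 | h6
      · rw [h6] at hξ
        exact absurd hξ h3
      · exact h6)
    have h6 : Φ' 0 = Φ 0 := by
      simp only [hΦ']
      rw [chi_zero]
      · simp
      · rw [zero_sub, abs_div, abs_neg, abs_of_pos hdpos, le_div_iff₀ hdpos, one_mul]
        exact hdζ
    rw [h6, Metric.tendsto_atTop] at h5
    obtain ⟨N', hN'⟩ := h5 (ε / 2) (by positivity)
    refine ⟨max N N', fun n hn => ?_⟩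
    have hi2 : Integrable (fun ξ => Φ ξ * chi ((ξ - ζ) / d)) :=
      (hΦ.continuous.mul hχ.continuous).integrable_of_hasCompactSupport hc.mul_right
    have h7 : F Φ = fun y => F Φ' y + F (fun ξ => Φ ξ * chi ((ξ - ζ) / d)) y := by
      rw [← F_add (h1.continuous.integrable_of_hasCompactSupport h2) hi2]
      congr 1
      ext ξ
      simp only [hΦ']
      ring
    rw [h7, It_add_fun]
    have h8 := hN n ((le_max_left _ _).trans hn)
    have h9 := hN' n ((le_max_right _ _).trans hn)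
    rw [dist_eq_norm] at h9 ⊢
    calc ‖It β (F Φ') n x + It β (F fun ξ => Φ ξ * chi ((ξ - ζ) / d)) n x - (hr β x : ℂ) * Φ 0‖
        = ‖(It β (F Φ') n x - (hr β x : ℂ) * Φ 0) + It β (F fun ξ => Φ ξ * chi ((ξ - ζ) / d)) n x‖ := by
          congr 1
          ring
      _ ≤ _ := norm_add_le _ _
      _ < ε := by linarith

lemma tendsto_test [Fact (1 < β)] (hβ2 : β < 2) (hac : bernoulliConv β ≪ volume) {x M : ℝ}
    (hx : Good β x M) {Φ : ℝ → ℂ} (hΦ : ContDiff ℝ 2 Φ) (hc : HasCompactSupport Φ) :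
    Tendsto (fun n => It β (F Φ) n x) atTop (𝓝 ((hr β x : ℂ) * Φ 0)) := by
  classical
  have hβ : 1 < β := Fact.out
  -- the zeros in the support
  obtain ⟨R, hR⟩ := hc.isCompact.isBounded.subset_closedBall 0
  obtain ⟨J, hJ⟩ : ∃ J : ℕ, 2 * R < β ^ J := pow_unbounded_of_one_lt _ hβ
  obtain ⟨P, hP⟩ : ∃ P : ℕ, 2 * R + 1 < P := exists_nat_gt _
  set Z : Finset ℝ := ((Finset.range J) ×ˢ (Finset.Icc (-(P : ℤ)) P)).image
    (fun jp : ℕ × ℤ => β ^ jp.1 * ((2 * jp.2 + 1) / 2)) with hZ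
  apply tendsto_finset hβ2 hac hx Z _ hΦ hc
  · intro ξ hξ h0
    have h1 := hR hξ
    rw [Metric.mem_closedBall, dist_zero_right, Real.norm_eq_abs] at h1
    obtain ⟨j, p, hj, rfl⟩ := zero_form h0
    rw [abs_mul, abs_of_pos (by positivity), abs_div, abs_two] at h1
    have hp1 : (1 : ℝ) ≤ |2 * (p : ℝ) + 1| := by
      have : (1 : ℤ) ≤ |2 * p + 1| := Int.one_le_abs (by omega)
      exact_mod_cast this
    have hbj : (1 : ℝ) ≤ β ^ j := one_le_pow₀ hβ.le
    rw [hZ, Finset.mem_image]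
    refine ⟨(j, p), ?_, rfl⟩
    rw [Finset.mem_product, Finset.mem_range, Finset.mem_Icc]
    constructor
    · by_contra hcon
      push Not at hcon
      have h2 : β ^ J ≤ β ^ j := pow_le_pow_right₀ hβ.le hcon
      nlinarith
    · have h2 : |2 * (p : ℝ) + 1| ≤ 2 * R := by nlinarith
      have h3 : |(p : ℝ)| ≤ P := by
        have h4 : |2 * (p : ℝ)| ≤ 2 * R + 1 := by
          calc |2 * (p : ℝ)| = |(2 * (p : ℝ) + 1) + (-1 : ℝ)| := by ring_nf
            _ ≤ |2 * (p : ℝ) + 1| + |(-1 : ℝ)| := abs_add_le _ _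
            _ ≤ 2 * R + 1 := by rw [abs_neg, abs_one]; linarith
        rw [abs_mul, abs_two] at h4
        have h5 := abs_nonneg (p : ℝ)
        linarith
      have h6 : |p| ≤ (P : ℤ) := by exact_mod_cast h3
      exact abs_le.1 h6
  · intro ζ hζ
    rw [hZ, Finset.mem_image] at hζ
    obtain ⟨⟨j, p⟩, _, rfl⟩ := hζ
    have : (2 * (p : ℝ) + 1) ≠ 0 := by
      have : (2 * p + 1 : ℤ) ≠ 0 := by omega
      exact_mod_cast this
    have : β ^ j ≠ 0 := by positivity
    positivity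

end Pool.Agent.D0H98.BC
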